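import Pool.Agent.Lib.MP_40d282_co.HexBound

open MeasureTheory Metric Set Filter Topology
open scoped ENNReal

namespace Pool.Agent.Lib.MP_40d282_co

def offA : Fin 9 → ℚ :=
  ![0, 1 / 3, 2 / 3, 1 / 3 + 299 / 125000, 1 / 3 - 598 / 125000, 1 / 3 + 299 / 125000,
    2 / 3 - 299 / 125000, 2 / 3 + 598 / 125000, 2 / 3 - 299 / 125000]

def offB : Fin 9 → ℚ :=
  ![0, 1 / 3, 2 / 3, 1 / 3 - 598 / 125000, 1 / 3 + 299 / 125000, 1 / 3 + 299 / 125000,
    2 / 3 + 598 / 125000, 2 / 3 - 299 / 125000, 2 / 3 - 299 / 125000]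

def rad : Fin 9 → ℚ :=
  ![50 / 87, 891 / 250000, 891 / 250000, 39 / 50000, 39 / 50000, 39 / 50000,
    39 / 50000, 39 / 50000, 39 / 50000]

lemma off_bounds : ∀ i : Fin 9, 0 ≤ offA i ∧ offA i ≤ 7 / 10 ∧ 0 ≤ offB i ∧ offB i ≤ 7 / 10 ∧
    39 / 50000 ≤ rad i ∧ rad i ≤ 50 / 87 := by
  decide +kernel

lemma finite_check : ∀ i j : Fin 9, ∀ d e : Fin 3, (i ≠ j ∨ d ≠ 1 ∨ e ≠ 1) →
    (max (rad i + 37 / 50 * rad j) (rad j + 37 / 50 * rad i)) ^ 2 ≤
      (((d : ℕ) : ℚ) - 1 + offA i - offA j) ^ 2 +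
        (((d : ℕ) : ℚ) - 1 + offA i - offA j) * (((e : ℕ) : ℚ) - 1 + offB i - offB j) +
        (((e : ℕ) : ℚ) - 1 + offB i - offB j) ^ 2 := by
  decide +kernel

lemma rat_check (i j : Fin 9) (d e : ℤ) (h : i ≠ j ∨ d ≠ 0 ∨ e ≠ 0) :
    (max (rad i + 37 / 50 * rad j) (rad j + 37 / 50 * rad i)) ^ 2 ≤
      ((d : ℚ) + offA i - offA j) ^ 2 +
        ((d : ℚ) + offA i - offA j) * ((e : ℚ) + offB i - offB j) +
        ((e : ℚ) + offB i - offB j) ^ 2 := by
  obtain ⟨a1, a2, a3, a4, a5, a6⟩ := off_bounds i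
  obtain ⟨b1, b2, b3, b4, b5, b6⟩ := off_bounds j
  have hm : (max (rad i + 37 / 50 * rad j) (rad j + 37 / 50 * rad i)) ^ 2 ≤ 1 := by
    apply pow_le_one₀
    · exact le_max_of_le_left (by linarith)
    · exact max_le (by linarith) (by linarith)
  by_cases hd : -1 ≤ d ∧ d ≤ 1
  · by_cases he : -1 ≤ e ∧ e ≤ 1
    · have := finite_check i j ⟨(d + 1).toNat, by omega⟩ ⟨(e + 1).toNat, by omega⟩ (by
        rcases h with h | h | h
        · exact Or.inl h
        · refine Or.inr (Or.inl ?_)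
          intro k
          have := congrArg Fin.val k
          simp only [Fin.val_one] at this
          omega
        · refine Or.inr (Or.inr ?_)
          intro k
          have := congrArg Fin.val k
          simp only [Fin.val_one] at this
          omega)
      have e1 : (((d + 1).toNat : ℕ) : ℚ) - 1 = d := by
        have : (((d + 1).toNat : ℕ) : ℤ) = d + 1 := by omega
        have h2 : (((d + 1).toNat : ℕ) : ℚ) = ((d + 1 : ℤ) : ℚ) := by exact_mod_cast this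
        rw [h2]; push_cast; ring
      have e2 : (((e + 1).toNat : ℕ) : ℚ) - 1 = e := by
        have : (((e + 1).toNat : ℕ) : ℤ) = e + 1 := by omega
        have h2 : (((e + 1).toNat : ℕ) : ℚ) = ((e + 1 : ℤ) : ℚ) := by exact_mod_cast this
        rw [h2]; push_cast; ring
      simp only [e1, e2] at this
      exact this
    · have h2 : (13 / 10 : ℚ) ^ 2 ≤ ((e : ℚ) + offB i - offB j) ^ 2 := by
        rcases (by omega : 2 ≤ e ∨ e ≤ -2) with k | k
        · have : (2 : ℚ) ≤ e := by exact_mod_cast k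
          nlinarith
        · have : (e : ℚ) ≤ -2 := by exact_mod_cast k
          nlinarith
      nlinarith [sq_nonneg (((d : ℚ) + offA i - offA j) + ((e : ℚ) + offB i - offB j) / 2)]
  · have h2 : (13 / 10 : ℚ) ^ 2 ≤ ((d : ℚ) + offA i - offA j) ^ 2 := by
      rcases (by omega : 2 ≤ d ∨ d ≤ -2) with k | k
      · have : (2 : ℚ) ≤ d := by exact_mod_cast k
        nlinarith
      · have : (d : ℚ) ≤ -2 := by exact_mod_cast k
        nlinarith
    nlinarith [sq_nonneg (((d : ℚ) + offA i - offA j) / 2 + ((e : ℚ) + offB i - offB j))]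

/-- centres of the counterexample -/
noncomputable def ctr (u v : Plane) (i : (ℤ × ℤ) × Fin 9) : Plane :=
  ((i.1.1 : ℝ) + offA i.2) • u + ((i.1.2 : ℝ) + offB i.2) • v

noncomputable def rr (i : (ℤ × ℤ) × Fin 9) : ℝ := rad i.2

lemma rr_bounds (i : (ℤ × ℤ) × Fin 9) : 39 / 50000 ≤ rr i ∧ rr i ≤ 50 / 87 := by
  obtain ⟨-, -, -, -, a5, a6⟩ := off_bounds i.2
  have h5 : ((39 / 50000 : ℚ) : ℝ) ≤ (rad i.2 : ℝ) := by exact_mod_cast a5
  have h6 : (rad i.2 : ℝ) ≤ ((50 / 87 : ℚ) : ℝ) := by exact_mod_cast a6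
  push_cast at h5 h6
  exact ⟨h5, h6⟩

lemma posHom : PosHomogeneous rr := ⟨39 / 50000, 50 / 87, by norm_num, rr_bounds⟩

lemma Hex.isArr {u v : Plane} (h : Hex u v) : IsArrangement (37 / 50) (ctr u v) rr := by
  refine ⟨fun i => by linarith [(rr_bounds i).1], ?_⟩
  intro i j hij
  have h1 : i.2 ≠ j.2 ∨ i.1.1 - j.1.1 ≠ 0 ∨ i.1.2 - j.1.2 ≠ 0 := by
    by_contra hc
    push Not at hc
    apply hij
    exact Prod.ext (Prod.ext (by omega) (by omega)) hc.1
  have h2 := rat_check i.2 j.2 _ _ h1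
  have h3 : ctr u v i - ctr u v j =
      (((i.1.1 - j.1.1 : ℤ) : ℝ) + offA i.2 - offA j.2) • u +
        (((i.1.2 - j.1.2 : ℤ) : ℝ) + offB i.2 - offB j.2) • v := by
    simp only [ctr, Int.cast_sub, add_smul, sub_smul]; abel
  rw [dist_eq_norm, h3]
  apply h.le_norm
  have h4 := (Rat.cast_le (K := ℝ)).mpr h2
  push_cast at h4 ⊢
  exact h4

lemma sum_rad : ∑ k : Fin 9, (rad k) ^ 2 = (50 / 87) ^ 2 + 2 * (891 / 250000) ^ 2 +
    6 * (39 / 50000) ^ 2 := by
  decide +kernel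

lemma Hex.sum_ge {u v : Plane} (h : Hex u v) (R : ℝ) :
    cnt u v (R - 2) * ENNReal.ofReal (Real.pi * ((50 / 87) ^ 2 + 2 * (891 / 250000) ^ 2 +
      6 * (39 / 50000) ^ 2)) ≤ centreSum (ctr u v) rr R := by
  let f : {n : ℤ × ℤ // ‖latticePoint u v n‖ ≤ R - 2} × Fin 9 →
      {i : (ℤ × ℤ) × Fin 9 // ctr u v i ∈ closedBall (0 : Plane) R} := fun z =>
    ⟨(z.1.1, z.2), by
      have h1 := z.1.2
      have h2 : ctr u v (z.1.1, z.2) =
          latticePoint u v z.1.1 + ((offA z.2 : ℝ) • u + (offB z.2 : ℝ) • v) := by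
        simp only [ctr, latticePoint, add_smul]; abel
      obtain ⟨a1, a2, a3, a4, -, -⟩ := off_bounds z.2
      have b1 : (0 : ℝ) ≤ offA z.2 := by exact_mod_cast a1
      have b3 : (0 : ℝ) ≤ offB z.2 := by exact_mod_cast a3
      have b2 : (offA z.2 : ℝ) ≤ 1 := by exact_mod_cast a2.trans (by norm_num)
      have b4 : (offB z.2 : ℝ) ≤ 1 := by exact_mod_cast a4.trans (by norm_num)
      have h3 : ‖(offA z.2 : ℝ) • u + (offB z.2 : ℝ) • v‖ ≤ 2 := by
        apply h.norm_le (by norm_num)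
        nlinarith
      rw [mem_closedBall, dist_zero_right, h2]
      linarith [norm_add_le (latticePoint u v z.1.1) ((offA z.2 : ℝ) • u + (offB z.2 : ℝ) • v)]⟩
  have hf : Function.Injective f := by
    intro a b hab
    have h1 : (a.1.1, a.2) = (b.1.1, b.2) := congrArg (fun z => z.1) hab
    exact Prod.ext (Subtype.ext (Prod.ext_iff.mp h1).1) (Prod.ext_iff.mp h1).2
  rw [centreSum]
  refine le_trans ?_ (ENNReal.tsum_comp_le_tsum_of_injective hf _)
  rw [ENNReal.tsum_prod', cnt, ← ENNReal.tsum_mul_right]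
  apply ENNReal.tsum_le_tsum
  intro n
  rw [tsum_fintype, one_mul]
  have h1 : ∀ k : Fin 9, volume (ball (ctr u v (f (n, k)).1) (rr (f (n, k)).1)) =
      ENNReal.ofReal (Real.pi * (rad k : ℝ) ^ 2) := by
    intro k
    rw [vol_b _ (by linarith [(rr_bounds (f (n, k)).1).1])]
    rfl
  simp only [h1]
  rw [← ENNReal.ofReal_sum_of_nonneg (fun _ _ => by positivity), ← Finset.mul_sum]
  apply ENNReal.ofReal_le_ofReal
  have h2 := congrArg (fun q : ℚ => (q : ℝ)) sum_rad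
  push_cast at h2
  rw [h2]

lemma Hex.le_density {u v : Plane} (h : Hex u v) :
    ENNReal.ofReal (Real.pi * (3303233 / 10000000) / kk u v) ≤ density (ctr u v) rr := by
  have hk := h.kk_pos
  have hpi := Real.pi_pos
  apply le_limsup_of_frequently_le
  swap
  · isBoundedDefault
  apply Eventually.frequently
  filter_upwards [eventually_ge_atTop (100000000 : ℝ)] with R hR
  rw [ENNReal.le_div_iff_mul_le (Or.inl (by
    have : 0 < Real.pi * R ^ 2 := by positivity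
    simpa using this)) (Or.inl ENNReal.ofReal_ne_top)]
  refine le_trans ?_ (h.sum_ge R)
  refine le_trans ?_ (mul_le_mul_left (h.le_cnt' (by linarith)) _)
  rw [← ENNReal.ofReal_mul (by positivity), ← ENNReal.ofReal_mul (by positivity)]
  apply ENNReal.ofReal_le_ofReal
  have key : 3303233 / 10000000 * R ^ 2 ≤ (R - 2 - 2) ^ 2 * ((50 / 87) ^ 2 +
      2 * (891 / 250000) ^ 2 + 6 * (39 / 50000) ^ 2) := by
    nlinarith
  have e1 : Real.pi * (3303233 / 10000000) / kk u v * (Real.pi * R ^ 2) =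
      (Real.pi ^ 2 / kk u v) * (3303233 / 10000000 * R ^ 2) := by
    field_simp
  have e2 : Real.pi * (R - 2 - 2) ^ 2 / kk u v * (Real.pi * ((50 / 87) ^ 2 +
      2 * (891 / 250000) ^ 2 + 6 * (39 / 50000) ^ 2)) = (Real.pi ^ 2 / kk u v) *
      ((R - 2 - 2) ^ 2 * ((50 / 87) ^ 2 + 2 * (891 / 250000) ^ 2 + 6 * (39 / 50000) ^ 2)) := by
    field_simp
  rw [e1, e2]
  gcongr

end Pool.Agent.Lib.MP_40d282_co
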