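import Pool.Agent.Lib.MP_40d282_co.Defs

open MeasureTheory Metric Set Filter Topology
open scoped ENNReal

namespace Pool.Agent.Lib.MP_40d282_co

/-- coordinates to plane -/
noncomputable def coordMap (u v : Plane) : Plane →ₗ[ℝ] Plane where
  toFun p := p 0 • u + p 1 • v
  map_add' p q := by
    simp only [PiLp.add_apply, add_smul]; abel
  map_smul' c p := by
    simp only [PiLp.smul_apply, smul_eq_mul, RingHom.id_apply, smul_add, mul_smul]

lemma coordMap_apply (u v p : Plane) : coordMap u v p = p 0 • u + p 1 • v := rfl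

structure Hex (u v : Plane) : Prop where
  hu : ‖u‖ = 1
  hv : ‖v‖ = 1
  huv : inner ℝ u v = 1 / 2

lemma Hex.normsq {u v : Plane} (h : Hex u v) (a b : ℝ) :
    ‖a • u + b • v‖ ^ 2 = a ^ 2 + a * b + b ^ 2 := by
  rw [norm_add_sq_real, norm_smul, norm_smul, h.hu, h.hv, inner_smul_left, inner_smul_right,
    h.huv]
  simp only [Real.norm_eq_abs, mul_one, sq_abs, conj_trivial]
  ring

lemma Hex.norm_le {u v : Plane} (h : Hex u v) {a b c : ℝ} (hc : 0 ≤ c)
    (H : a ^ 2 + a * b + b ^ 2 ≤ c ^ 2) : ‖a • u + b • v‖ ≤ c := by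
  rw [← h.normsq] at H
  exact (pow_le_pow_iff_left₀ (norm_nonneg _) hc two_ne_zero).mp H
  
lemma Hex.le_norm {u v : Plane} (h : Hex u v) {a b c : ℝ}
    (H : c ^ 2 ≤ a ^ 2 + a * b + b ^ 2) : c ≤ ‖a • u + b • v‖ := by
  rw [← h.normsq] at H
  exact le_of_sq_le_sq H (norm_nonneg _)

lemma Hex.norm_lt {u v : Plane} (h : Hex u v) {a b c : ℝ} (hc : 0 ≤ c)
    (H : a ^ 2 + a * b + b ^ 2 < c ^ 2) : ‖a • u + b • v‖ < c := by
  rw [← h.normsq] at H
  exact lt_of_pow_lt_pow_left₀ 2 hc H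

lemma Hex.inj {u v : Plane} (h : Hex u v) : Function.Injective (coordMap u v) := by
  rw [← LinearMap.ker_eq_bot, LinearMap.ker_eq_bot']
  intro p hp
  have h1 := h.normsq (p 0) (p 1)
  rw [← coordMap_apply, hp] at h1
  simp only [norm_zero] at h1
  have h0 : p 0 = 0 := by nlinarith [sq_nonneg (p 0 + p 1), sq_nonneg (p 0), sq_nonneg (p 1)]
  have h2 : p 1 = 0 := by nlinarith [sq_nonneg (p 0 + p 1), sq_nonneg (p 0), sq_nonneg (p 1)]
  ext i
  fin_cases i
  · simpa using h0
  · simpa using h2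

lemma Hex.surj {u v : Plane} (h : Hex u v) : Function.Surjective (coordMap u v) :=
  LinearMap.injective_iff_surjective.mp h.inj

/-- area scale -/
noncomputable def kap (u v : Plane) : ℝ≥0∞ := ENNReal.ofReal |LinearMap.det (coordMap u v)|

lemma kap_ne_top (u v : Plane) : kap u v ≠ ⊤ := ENNReal.ofReal_ne_top

lemma Hex.kap_ne_zero {u v : Plane} (h : Hex u v) : kap u v ≠ 0 := by
  have : LinearMap.det (coordMap u v) ≠ 0 := by
    intro h0
    have := LinearMap.bot_lt_ker_of_det_eq_zero h0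
    rw [LinearMap.ker_eq_bot.mpr h.inj] at this
    exact lt_irrefl _ this
  simp only [kap, ne_eq, ENNReal.ofReal_eq_zero, not_le]
  exact abs_pos.mpr this

lemma Hex.vol_eq {u v : Plane} (h : Hex u v) (S : Set Plane) :
    volume S = kap u v * volume (coordMap u v ⁻¹' S) := by
  rw [kap, ← Measure.addHaar_image_linearMap, image_preimage_eq _ h.surj]

/-- half-open square -/
def sq (a b w : ℝ) : Set Plane := {p | p 0 ∈ Ico a (a + w) ∧ p 1 ∈ Ico b (b + w)}

lemma meas_coord (i : Fin 2) : Measurable (fun p : Plane => p i) := by fun_prop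

lemma measurableSet_sq (a b w : ℝ) : MeasurableSet (sq a b w) :=
  ((meas_coord 0) measurableSet_Ico).inter ((meas_coord 1) measurableSet_Ico)

lemma volume_sq (a b w : ℝ) : volume (sq a b w) = ENNReal.ofReal w * ENNReal.ofReal w := by
  have : sq a b w = WithLp.ofLp ⁻¹'
      (Set.univ.pi fun i : Fin 2 => Ico (![a, b] i) (![a + w, b + w] i)) := by
    ext p
    simp [sq, Fin.forall_fin_two]
  rw [this, (PiLp.volume_preserving_ofLp (Fin 2)).measure_preimage
    (MeasurableSet.univ_pi (fun _ => measurableSet_Ico)).nullMeasurableSet, Real.volume_pi_Ico]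
  simp

def cell (n : ℤ × ℤ) : Set Plane := sq n.1 n.2 1

lemma volume_cell (n : ℤ × ℤ) : volume (cell n) = 1 := by simp [cell, volume_sq]

lemma mem_cell_floor (p : Plane) : p ∈ cell (⌊p 0⌋, ⌊p 1⌋) :=
  ⟨⟨Int.floor_le _, Int.lt_floor_add_one _⟩, ⟨Int.floor_le _, Int.lt_floor_add_one _⟩⟩

lemma cell_disjoint : Pairwise (Function.onFun Disjoint cell) := by
  intro n m hnm
  rw [Function.onFun, Set.disjoint_left]
  intro p hp hq
  apply hnm
  have h1 : ⌊p 0⌋ = n.1 := Int.floor_eq_iff.mpr hp.1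
  have h2 : ⌊p 1⌋ = n.2 := Int.floor_eq_iff.mpr hp.2
  have h3 : ⌊p 0⌋ = m.1 := Int.floor_eq_iff.mpr hq.1
  have h4 : ⌊p 1⌋ = m.2 := Int.floor_eq_iff.mpr hq.2
  exact Prod.ext (h1.symm.trans h3) (h2.symm.trans h4)

/-- number of lattice points in a disk -/
noncomputable def cnt (u v : Plane) (R : ℝ) : ℝ≥0∞ :=
  ∑' _ : {n : ℤ × ℤ // ‖latticePoint u v n‖ ≤ R}, (1 : ℝ≥0∞)

lemma Hex.near {u v : Plane} (h : Hex u v) {n : ℤ × ℤ} {p : Plane} (hp : p ∈ cell n) :
    ‖coordMap u v p - latticePoint u v n‖ ≤ 2 := by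
  have : coordMap u v p - latticePoint u v n = (p 0 - n.1) • u + (p 1 - n.2) • v := by
    simp only [coordMap_apply, latticePoint, sub_smul]; abel
  rw [this]
  obtain ⟨⟨h1, h2⟩, ⟨h3, h4⟩⟩ := hp
  apply h.norm_le (by norm_num)
  nlinarith

lemma Hex.cnt_le {u v : Plane} (h : Hex u v) (R : ℝ) :
    kap u v * cnt u v R ≤ volume (closedBall (0 : Plane) (R + 2)) := by
  rw [h.vol_eq]
  gcongr
  have : cnt u v R = volume (⋃ n : {n : ℤ × ℤ // ‖latticePoint u v n‖ ≤ R}, cell n.1) := by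
    rw [measure_iUnion]
    · simp [cnt, volume_cell]
    · intro a b hab
      exact cell_disjoint (fun e => hab (Subtype.ext e))
    · intro n; exact measurableSet_sq _ _ _
  rw [this]
  apply measure_mono
  intro p hp
  obtain ⟨n, hn⟩ := mem_iUnion.mp hp
  have h1 := h.near hn
  have h2 := n.2
  simp only [mem_preimage, mem_closedBall, dist_zero_right]
  calc ‖coordMap u v p‖ = ‖(coordMap u v p - latticePoint u v n) + latticePoint u v n‖ := by
        simp
    _ ≤ _ := norm_add_le _ _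
    _ ≤ R + 2 := by linarith

lemma Hex.le_cnt {u v : Plane} (h : Hex u v) (R : ℝ) :
    volume (closedBall (0 : Plane) (R - 2)) ≤ kap u v * cnt u v R := by
  rw [h.vol_eq]
  gcongr
  calc volume (coordMap u v ⁻¹' closedBall (0 : Plane) (R - 2))
      ≤ volume (⋃ n : {n : ℤ × ℤ // ‖latticePoint u v n‖ ≤ R}, cell n.1) := by
        apply measure_mono
        intro p hp
        simp only [mem_preimage, mem_closedBall, dist_zero_right] at hp
        have h1 := h.near (mem_cell_floor p)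
        refine mem_iUnion.mpr ⟨⟨(⌊p 0⌋, ⌊p 1⌋), ?_⟩, mem_cell_floor p⟩
        calc ‖latticePoint u v (⌊p 0⌋, ⌊p 1⌋)‖
            = ‖coordMap u v p - (coordMap u v p - latticePoint u v (⌊p 0⌋, ⌊p 1⌋))‖ := by simp
          _ ≤ _ := norm_sub_le _ _
          _ ≤ R := by linarith
    _ ≤ ∑' n : {n : ℤ × ℤ // ‖latticePoint u v n‖ ≤ R}, volume (cell n.1) := measure_iUnion_le _
    _ = cnt u v R := by simp [cnt, volume_cell]

end Pool.Agent.Lib.MP_40d282_co
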