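import Mathlib

/-!
Definitions for generalized Minkowski arrangements of disks in the Euclidean plane.
A family of disks is given by an index type, centres `x i` and radii `ρ i`;
the member with index `i` is the open disk `Metric.ball (x i) (ρ i)`.
All areas are Lebesgue measure, with values in `ℝ≥0∞`.
-/

open MeasureTheory Metric Set Filter
open scoped ENNReal

namespace Pool.Agent.Lib.MP_40d282_co

/-- The Euclidean plane. -/
abbrev Plane : Type := EuclideanSpace ℝ (Fin 2)

/-- `μ`-arrangement: positive radii and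
`|x i - x j| ≥ max (ρ i + μ ρ j) (ρ j + μ ρ i)` for all `i ≠ j`. -/
def IsArrangement {ι : Type} (μ : ℝ) (x : ι → Plane) (ρ : ι → ℝ) : Prop :=
  (∀ i, 0 < ρ i) ∧ ∀ i j, i ≠ j → max (ρ i + μ * ρ j) (ρ j + μ * ρ i) ≤ dist (x i) (x j)

/-- Positive homogeneity: the radii are bounded below by a positive number and bounded above. -/
def PosHomogeneous {ι : Type} (ρ : ι → ℝ) : Prop :=
  ∃ a b : ℝ, 0 < a ∧ ∀ i, a ≤ ρ i ∧ ρ i ≤ b

/-- Total area of the members whose centres lie in the closed disk of radius `R` about `0`. -/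
noncomputable def centreSum {ι : Type} (x : ι → Plane) (ρ : ι → ℝ) (R : ℝ) : ℝ≥0∞ :=
  ∑' i : {i : ι // x i ∈ closedBall (0 : Plane) R}, volume (ball (x i) (ρ i))

/-- Upper density. -/
noncomputable def density {ι : Type} (x : ι → Plane) (ρ : ι → ℝ) : ℝ≥0∞ :=
  limsup (fun R : ℝ => centreSum x ρ R / ENNReal.ofReal (Real.pi * R ^ 2)) atTop

/-- Sum of the areas of the members contained in the closed disk of radius `R` about `0`. -/
noncomputable def insideSum {ι : Type} (x : ι → Plane) (ρ : ι → ℝ) (R : ℝ) : ℝ≥0∞ :=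
  ∑' i : {i : ι // ball (x i) (ρ i) ⊆ closedBall (0 : Plane) R}, volume (ball (x i) (ρ i))

/-- Area of the union of the members contained in the closed disk of radius `R` about `0`. -/
noncomputable def insideUnion {ι : Type} (x : ι → Plane) (ρ : ι → ℝ) (R : ℝ) : ℝ≥0∞ :=
  volume (⋃ i : {i : ι // ball (x i) (ρ i) ⊆ closedBall (0 : Plane) R}, ball (x i) (ρ i))

/-- Density relative to the union. -/
noncomputable def unionDensity {ι : Type} (x : ι → Plane) (ρ : ι → ℝ) : ℝ≥0∞ :=
  limsup (fun R : ℝ => insideSum x ρ R / insideUnion x ρ R) atTop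

/-- The lattice point `n.1 • u + n.2 • v`. -/
noncomputable def latticePoint (u v : Plane) (n : ℤ × ℤ) : Plane :=
  (n.1 : ℝ) • u + (n.2 : ℝ) • v

end Pool.Agent.Lib.MP_40d282_co
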