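import Pool.Agent.Lib.MP_40d282_co.Arr

open Pool.Agent.Lib.MP_40d282_co

/-- For `μ = 37/50`, which lies in `(√3 - 1, 1)`, there is a countable `μ`-arrangement of disks
of positive homogeneity whose density exceeds the density relative to the union of the
hexagonal arrangement of disks of radius `1 / (1 + μ)`. -/
theorem Pool.Agent.Lib.MP_40d282_co.counterexample_one_order :
    ∃ μ : ℝ, Real.sqrt 3 - 1 < μ ∧ μ < 1 ∧
      ∀ u v : Plane, ‖u‖ = 1 → ‖v‖ = 1 → InnerProductGeometry.angle u v = Real.pi / 3 →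
        ∃ (ι : Type) (_ : Countable ι) (x : ι → Plane) (ρ : ι → ℝ),
          IsArrangement μ x ρ ∧ PosHomogeneous ρ ∧
            unionDensity (latticePoint u v) (fun _ => 1 / (1 + μ)) < density x ρ := by
  refine ⟨37 / 50, ?_, by norm_num, ?_⟩
  · have : Real.sqrt 3 < 87 / 50 := by
      rw [Real.sqrt_lt' (by norm_num)]; norm_num
    linarith
  intro u v hu hv huv
  have h : Hex u v := by
    refine ⟨hu, hv, ?_⟩
    have := InnerProductGeometry.cos_angle u v
    rw [huv, hu, hv, Real.cos_pi_div_three] at this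
    simpa using this.symm
  refine ⟨(ℤ × ℤ) × Fin 9, inferInstance, ctr u v, rr, h.isArr, posHom, ?_⟩
  have e : (1 / (1 + 37 / 50) : ℝ) = 50 / 87 := by norm_num
  rw [e]
  refine h.unionDensity_le.trans_lt (lt_of_lt_of_le ?_ h.le_density)
  have hk := h.kk_pos
  have hpi := Real.pi_pos
  rw [ENNReal.ofReal_lt_ofReal_iff (by positivity)]
  gcongr
  norm_num
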