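import Pool.Agent.Lib.MP_40d282_co.HexBound

/-! Finite arrangements inside a set: gluing, scaling, and filling an open set. -/

open MeasureTheory Metric Set Filter Topology
open scoped ENNReal

namespace Pool.Agent.Lib.MP_40d282_co.H4

/-- a finite arrangement, given by pairs (centre, radius) -/
def Arr (μ : ℝ) (T : Finset (Plane × ℝ)) : Prop :=
  (∀ a ∈ T, 0 < a.2) ∧ ∀ a ∈ T, ∀ b ∈ T, a ≠ b → a.2 + μ * b.2 ≤ dist a.1 b.1

noncomputable def tot (T : Finset (Plane × ℝ)) : ℝ := ∑ a ∈ T, Real.pi * a.2 ^ 2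

def Inside (T : Finset (Plane × ℝ)) (U : Set Plane) : Prop := ∀ a ∈ T, ball a.1 a.2 ⊆ U

def Fill (μ : ℝ) (U : Set Plane) (s : ℝ) : Prop := ∃ T, Arr μ T ∧ Inside T U ∧ s ≤ tot T

variable {μ : ℝ}

lemma Fill.mono {U V : Set Plane} {s t : ℝ} (h : Fill μ U s) (hU : U ⊆ V) (ht : t ≤ s) :
    Fill μ V t := by
  obtain ⟨T, h1, h2, h3⟩ := h
  exact ⟨T, h1, fun a ha => (h2 a ha).trans hU, ht.trans h3⟩

lemma fill_zero (U : Set Plane) : Fill μ U 0 :=
  ⟨∅, ⟨by simp, by simp⟩, by simp [Inside], by simp [tot]⟩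

lemma far (hμ : μ ≤ 1) {x y : Plane} {r s : ℝ} (hr : 0 < r) (hs : 0 < s)
    (h : Disjoint (ball x r) (ball y s)) : r + μ * s ≤ dist x y := by
  have := (disjoint_ball_ball_iff hr hs).mp h
  nlinarith

lemma glue (hμ : μ ≤ 1) {T S : Finset (Plane × ℝ)} {U : Set Plane} (hT : Arr μ T) (hS : Arr μ S)
    (hTU : Inside T U) (hSU : Inside S U)
    (hd : ∀ a ∈ T, ∀ b ∈ S, Disjoint (ball a.1 a.2) (ball b.1 b.2)) :
    Fill μ U (tot T + tot S) := by
  classical
  have hdis : Disjoint T S := by
    rw [Finset.disjoint_left]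
    intro a ha hb
    have := hd a ha a hb
    rw [disjoint_self] at this
    exact (nonempty_ball.mpr (hT.1 a ha)).ne_empty this
  refine ⟨T ∪ S, ⟨?_, ?_⟩, ?_, ?_⟩
  · intro a ha
    rcases Finset.mem_union.mp ha with h | h
    · exact hT.1 a h
    · exact hS.1 a h
  · intro a ha b hb hab
    rcases Finset.mem_union.mp ha with h | h <;> rcases Finset.mem_union.mp hb with k | k
    · exact hT.2 a h b k hab
    · exact far hμ (hT.1 a h) (hS.1 b k) (hd a h b k)
    · exact far hμ (hS.1 a h) (hT.1 b k) (hd b k a h).symm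
    · exact hS.2 a h b k hab
  · intro a ha
    rcases Finset.mem_union.mp ha with h | h
    · exact hTU a h
    · exact hSU a h
  · rw [tot, tot, tot, Finset.sum_union hdis]

lemma Fill.union (hμ : μ ≤ 1) {U V : Set Plane} {s t : ℝ} (h : Fill μ U s) (k : Fill μ V t)
    (hd : Disjoint U V) : Fill μ (U ∪ V) (s + t) := by
  obtain ⟨T, h1, h2, h3⟩ := h
  obtain ⟨S, k1, k2, k3⟩ := k
  exact (glue hμ h1 k1 (fun a ha => (h2 a ha).trans subset_union_left)
    (fun a ha => (k2 a ha).trans subset_union_right)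
    (fun a ha b hb => hd.mono (h2 a ha) (k2 b hb))).mono subset_rfl (add_le_add h3 k3)

lemma Fill.scale {R s t : ℝ} (h : Fill μ (ball 0 R) s) (x : Plane) (ht : 0 < t) :
    Fill μ (ball x (t * R)) (t ^ 2 * s) := by
  classical
  obtain ⟨T, h1, h2, h3⟩ := h
  let f : Plane × ℝ → Plane × ℝ := fun a => (x + t • a.1, t * a.2)
  have hf : Function.Injective f := by
    intro a b hab
    have e1 : x + t • a.1 = x + t • b.1 := congrArg Prod.fst hab
    have e2 : t * a.2 = t * b.2 := congrArg Prod.snd hab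
    exact Prod.ext (smul_right_injective _ ht.ne' (add_left_cancel e1)) (mul_left_cancel₀ ht.ne' e2)
  refine ⟨T.image f, ⟨?_, ?_⟩, ?_, ?_⟩
  · intro a ha
    obtain ⟨b, hb, rfl⟩ := Finset.mem_image.mp ha
    exact mul_pos ht (h1.1 b hb)
  · intro a' ha' b' hb' hab
    obtain ⟨a, ha, rfl⟩ := Finset.mem_image.mp ha'
    obtain ⟨b, hb, rfl⟩ := Finset.mem_image.mp hb'
    have := h1.2 a ha b hb (fun e => hab (by rw [e]))
    simp only [f, dist_add_left, dist_smul₀, Real.norm_eq_abs, abs_of_pos ht]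
    nlinarith
  · intro a' ha'
    obtain ⟨a, ha, rfl⟩ := Finset.mem_image.mp ha'
    intro p hp
    have e : p = x + t • (t⁻¹ • (p - x)) := by
      rw [smul_smul, mul_inv_cancel₀ ht.ne', one_smul]; abel
    have hq : t⁻¹ • (p - x) ∈ ball a.1 a.2 := by
      rw [e] at hp
      simp only [f, mem_ball, dist_add_left, dist_smul₀, Real.norm_eq_abs, abs_of_pos ht] at hp
      exact lt_of_mul_lt_mul_left hp ht.le
    have := h2 a ha hq
    rw [mem_ball, dist_zero_right] at this
    rw [mem_ball, e, dist_eq_norm, add_sub_cancel_left, norm_smul, Real.norm_eq_abs, abs_of_pos ht]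
    exact mul_lt_mul_of_pos_left this ht
  · rw [tot, Finset.sum_image (fun a _ b _ e => hf e)]
    refine (mul_le_mul_of_nonneg_left h3 (by positivity)).trans (le_of_eq ?_)
    rw [tot, Finset.mul_sum]
    exact Finset.sum_congr rfl fun a _ => by simp only [f]; ring

lemma fill_balls (hμ : μ ≤ 1) {c : ℝ} (h : Fill μ (ball 0 1) (c * Real.pi)) (r : Plane → ℝ)
    (t : Finset Plane) (hr : ∀ x ∈ t, 0 < r x)
    (hd : (t : Set Plane).PairwiseDisjoint fun x => ball x (r x)) :
    Fill μ (⋃ x ∈ t, ball x (r x)) (c * ∑ x ∈ t, Real.pi * r x ^ 2) := by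
  classical
  induction t using Finset.induction_on with
  | empty => simpa using fill_zero _
  | insert y t hy ih =>
    have h1 := ih (fun x hx => hr x (Finset.mem_insert_of_mem hx))
      (hd.subset (by simp))
    have h2 := h.scale y (hr y (Finset.mem_insert_self _ _))
    rw [mul_one] at h2
    have h3 : Disjoint (ball y (r y)) (⋃ x ∈ t, ball x (r x)) := by
      simp only [disjoint_iUnion_right]
      intro x hx
      exact hd (by simp) (by simp [hx]) (fun e => hy (e ▸ hx))
    refine (h2.union hμ h1 h3).mono ?_ (le_of_eq ?_)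
    · simp
    · rw [Finset.sum_insert hy]; ring

/-- An open set can be filled with any density that is available in a disk. -/
lemma fill_open (hμ : μ ≤ 1) {c a : ℝ} (hc : 0 ≤ c) (h : Fill μ (ball 0 1) (c * Real.pi))
    {U : Set Plane} (hU : IsOpen U) (ha : ENNReal.ofReal a < volume U) : Fill μ U (c * a) := by
  classical
  have hR : ∀ x ∈ U, ∃ R > 0, ball x R ⊆ U := fun x hx => Metric.isOpen_iff.mp hU x hx
  choose! R hR0 hRU using hR
  obtain ⟨t, r, htc, htU, hr, hnull, hdis⟩ :=
    Besicovitch.exists_disjoint_closedBall_covering_ae (volume : Measure Plane) (fun _ => univ) U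
      (fun x _ δ hδ => ⟨δ / 2, trivial, by linarith, by linarith⟩) R hR0
  have : Countable t := htc.to_subtype
  have h1 : volume U ≤ ∑' x : t, volume (closedBall (x : Plane) (r x)) := by
    calc volume U ≤ volume ((U \ ⋃ x ∈ t, closedBall x (r x)) ∪ ⋃ x ∈ t, closedBall x (r x)) :=
          measure_mono (by rw [sdiff_union_self]; exact subset_union_left)
      _ ≤ _ := measure_union_le _ _
      _ = volume (⋃ x : t, closedBall (x : Plane) (r x)) := by
          rw [hnull, zero_add, biUnion_eq_iUnion]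
      _ ≤ _ := measure_iUnion_le _
  have h2 := ha.trans_le h1
  rw [ENNReal.tsum_eq_iSup_sum, lt_iSup_iff] at h2
  obtain ⟨F, hF⟩ := h2
  let G : Finset Plane := F.image Subtype.val
  have hG : ∀ x ∈ G, x ∈ t := by
    intro x hx
    obtain ⟨y, -, rfl⟩ := Finset.mem_image.mp hx
    exact y.2
  have h3 := fill_balls hμ h r G (fun x hx => (hr x (hG x hx)).2.1)
    (fun x hx y hy hxy => (hdis (hG x hx) (hG y hy) hxy).mono ball_subset_closedBall
      ball_subset_closedBall)
  refine h3.mono ?_ (mul_le_mul_of_nonneg_left ?_ hc)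
  · simp only [iUnion_subset_iff]
    intro x hx
    exact (ball_subset_ball (hr x (hG x hx)).2.2.le).trans (hRU x (htU (hG x hx)))
  · rw [Finset.sum_image (fun a _ b _ e => Subtype.ext e)]
    have e : ∑ x ∈ F, volume (closedBall (x : Plane) (r x)) =
        ENNReal.ofReal (∑ x ∈ F, Real.pi * r x ^ 2) := by
      rw [ENNReal.ofReal_sum_of_nonneg (fun _ _ => by positivity)]
      refine Finset.sum_congr rfl fun x _ => ?_
      rw [Measure.addHaar_closedBall_eq_addHaar_ball, vol_b _ (hr x x.2).2.1.le]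
    rw [e] at hF
    exact ((ENNReal.ofReal_lt_ofReal_iff'.mp hF).1).le

end Pool.Agent.Lib.MP_40d282_co.H4
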