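import Pool.Agent.Lib.MP_40d282_co.H4Lens

/-! The hexagonal arrangement: exclusive parts, density relative to the union, the hole disk. -/

open MeasureTheory Metric Set Filter Topology
open scoped ENNReal Pointwise

namespace Pool.Agent.Lib.MP_40d282_co.H4

noncomputable def c0 (u v : Plane) : Plane := (1 / 3 : ℝ) • u + (1 / 3 : ℝ) • v

/-- the new area brought by the disk of radius `r` in the hole -/
def W0 (u v : Plane) (ρ r : ℝ) : Set Plane :=
  ball (c0 u v) r \ (ball 0 ρ ∪ ball u ρ ∪ ball v ρ)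

lemma hex_of_norms {a b : Plane} (ha : ‖a‖ = 1) (hb : ‖b‖ = 1) (hab : ‖a - b‖ = 1) : Hex a b := by
  refine ⟨ha, hb, ?_⟩
  have := norm_sub_sq_real a b
  rw [ha, hb, hab] at this
  linarith

lemma norm_one {u v : Plane} (h : Hex u v) {a b : ℝ} (H : a ^ 2 + a * b + b ^ 2 = 1) :
    ‖a • u + b • v‖ = 1 :=
  le_antisymm (h.norm_le zero_le_one (by linarith)) (h.le_norm (by linarith))

lemma W0_lt {u v : Plane} (h : Hex u v) {ρ t s : ℝ} (h1 : 1 / 2 < ρ) (h2 : ρ ^ 2 < 1 / 3)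
    (ht : 0 < t) (ht1 : t < 1) (hs : s ^ 2 = 3) (hk : (t + ρ * (1 - t)) * s = 1) :
    volume.real (W0 u v ρ (t * ρ)) < t ^ 2 * volume.real (E0 u v ρ) := by
  have hρ : 0 < ρ := by linarith
  set u' : Plane := (2 * s / 3) • u + (-s / 3) • v with hu'
  set v' : Plane := (s / 3) • u + (s / 3) • v with hv'
  have h' : Hex u' v' := by
    refine hex_of_norms (norm_one h (by nlinarith)) (norm_one h (by nlinarith)) ?_
    have e : u' - v' = (s / 3) • u + (-2 * s / 3) • v := by rw [hu', hv']; module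
    rw [e]; exact norm_one h (by nlinarith)
  have hZ := Z_lt h' h1 h2 ht ht1
  rw [lens_eq ρ (h'.hu.trans h.hu.symm)] at hZ
  have hE := E0_ge h hρ.le
  set Z := ball 0 ρ \ (PB ρ t (-v') ∪ PB ρ t u' ∪ PB ρ t (v' - u')) with hZd
  set k := t + ρ * (1 - t) with hkd
  have k1 : k • v' = c0 u v := by
    rw [hv', c0, smul_add, smul_smul, smul_smul]
    have : k * (s / 3) = 1 / 3 := by linarith
    rw [this]
  have k2 : k • u' = u - c0 u v := by
    rw [hu', c0, smul_add, smul_smul, smul_smul]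
    have e1 : k * (2 * s / 3) = 2 / 3 := by linarith
    have e2 : k * (-s / 3) = -1 / 3 := by linarith
    rw [e1, e2]; module
  have k3 : k • (v' - u') = v - c0 u v := by
    rw [smul_sub, k1, k2, c0]; module
  have hsub : W0 u v ρ (t * ρ) ⊆ (fun x => x + -c0 u v) ⁻¹' (t • Z) := by
    rintro x ⟨hx, hx'⟩
    simp only [mem_union, not_or, mem_ball, dist_eq_norm] at hx hx'
    have e : t • (t⁻¹ • (x + -c0 u v)) = x + -c0 u v := by
      rw [smul_smul, mul_inv_cancel₀ ht.ne', one_smul]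
    refine ⟨t⁻¹ • (x + -c0 u v), ⟨?_, ?_⟩, e⟩
    · rw [mem_ball, dist_zero_right, norm_smul, Real.norm_eq_abs, abs_of_pos (inv_pos.mpr ht),
        inv_mul_lt_iff₀ ht, ← sub_eq_add_neg]
      exact hx
    · simp only [mem_union, not_or, PB, mem_ofPred_eq, e, ← hkd, smul_neg, k1, k2, k3]
      have a1 : x + -c0 u v - -c0 u v = x - 0 := by abel
      have a2 : x + -c0 u v - (u - c0 u v) = x - u := by abel
      have a3 : x + -c0 u v - (v - c0 u v) = x - v := by abel
      rw [a1, a2, a3]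
      exact hx'
  have hv : volume ((fun x => x + -c0 u v) ⁻¹' (t • Z)) = ENNReal.ofReal (t ^ 2) * volume Z := by
    rw [measure_preimage_add_right, Measure.addHaar_smul_of_nonneg _ ht.le]
    simp
  have hZf : volume Z ≠ ∞ := sub_fin sdiff_subset
  have h3 : volume.real (W0 u v ρ (t * ρ)) ≤ t ^ 2 * volume.real Z := by
    refine (measureReal_mono hsub (by rw [hv]; finiteness)).trans (le_of_eq ?_)
    rw [measureReal_def, hv, ENNReal.toReal_mul, ENNReal.toReal_ofReal (by positivity)]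
    rfl
  have : t ^ 2 * volume.real Z < t ^ 2 * volume.real (E0 u v ρ) :=
    mul_lt_mul_of_pos_left (by linarith) (by positivity)
  linarith

def En (u v : Plane) (ρ : ℝ) (n : ℤ × ℤ) : Set Plane :=
  (fun x => x + -latticePoint u v n) ⁻¹' E0 u v ρ

lemma vol_En (u v : Plane) (ρ : ℝ) (n : ℤ × ℤ) : volume (En u v ρ n) = volume (E0 u v ρ) :=
  measure_preimage_add_right _ _ _

lemma meas_E0 (u v : Plane) (ρ : ℝ) : MeasurableSet (E0 u v ρ) :=
  measurableSet_ball.diff ((measurableSet_ball.union measurableSet_ball).union measurableSet_ball)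

lemma meas_En (u v : Plane) (ρ : ℝ) (n : ℤ × ℤ) : MeasurableSet (En u v ρ n) :=
  (measurable_add_const _) (meas_E0 u v ρ)

lemma mem_En {u v : Plane} {ρ : ℝ} {n : ℤ × ℤ} {x : Plane} :
    x ∈ En u v ρ n ↔ x ∈ ball (latticePoint u v n) ρ ∧ x ∉ ball (latticePoint u v (n + (1, 0))) ρ ∧
      x ∉ ball (latticePoint u v (n + (0, 1))) ρ ∧ x ∉ ball (latticePoint u v (n + (-1, 1))) ρ := by
  have e0 : x + -latticePoint u v n - 0 = x - latticePoint u v n := by abel
  have e1 : x + -latticePoint u v n - u = x - latticePoint u v (n + (1, 0)) := by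
    simp only [latticePoint, Prod.fst_add, Prod.snd_add]; push_cast; module
  have e2 : x + -latticePoint u v n - v = x - latticePoint u v (n + (0, 1)) := by
    simp only [latticePoint, Prod.fst_add, Prod.snd_add]; push_cast; module
  have e3 : x + -latticePoint u v n - (v - u) = x - latticePoint u v (n + (-1, 1)) := by
    simp only [latticePoint, Prod.fst_add, Prod.snd_add]; push_cast; module
  simp only [En, E0, mem_preimage, Set.mem_sdiff, mem_union, mem_ball, dist_eq_norm, e0, e1, e2,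
    e3, not_or, and_assoc]

lemma lat_sub (u v : Plane) (n m : ℤ × ℤ) : latticePoint u v n - latticePoint u v m =
    ((n.1 - m.1 : ℤ) : ℝ) • u + ((n.2 - m.2 : ℤ) : ℝ) • v := by
  simp only [latticePoint]; push_cast; module

lemma int_nb {a b : ℤ} (h : a ^ 2 + a * b + b ^ 2 < 2) :
    (a = 0 ∧ b = 0) ∨ (a = 1 ∧ b = 0) ∨ (a = 0 ∧ b = 1) ∨ (a = -1 ∧ b = 1) ∨
      (a = -1 ∧ b = 0) ∨ (a = 0 ∧ b = -1) ∨ (a = 1 ∧ b = -1) := by
  have h1 : a ≤ 1 := by nlinarith [sq_nonneg (a + 2 * b)]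
  have h2 : -1 ≤ a := by nlinarith [sq_nonneg (a + 2 * b)]
  have h3 : b ≤ 1 := by nlinarith [sq_nonneg (2 * a + b)]
  have h4 : -1 ≤ b := by nlinarith [sq_nonneg (2 * a + b)]
  interval_cases a <;> interval_cases b <;> simp_all

lemma En_disj {u v : Plane} (h : Hex u v) {ρ : ℝ} (h2 : ρ ^ 2 < 1 / 3) :
    Pairwise (Function.onFun Disjoint (En u v ρ)) := by
  intro n m hnm
  rw [Function.onFun, Set.disjoint_left]
  intro x hn hm
  rw [mem_En] at hn hm
  have d : dist (latticePoint u v n) (latticePoint u v m) < ρ + ρ :=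
    (dist_triangle_left _ _ x).trans_lt (add_lt_add hn.1 hm.1)
  rw [dist_eq_norm, lat_sub] at d
  have d2 := h.normsq ((n.1 - m.1 : ℤ) : ℝ) ((n.2 - m.2 : ℤ) : ℝ)
  have d3 : ((n.1 - m.1 : ℤ) : ℝ) ^ 2 + ((n.1 - m.1 : ℤ) : ℝ) * ((n.2 - m.2 : ℤ) : ℝ) +
      ((n.2 - m.2 : ℤ) : ℝ) ^ 2 < 2 := by
    rw [← d2]
    have := pow_lt_pow_left₀ d (norm_nonneg _) two_ne_zero
    nlinarith
  have d4 : (n.1 - m.1) ^ 2 + (n.1 - m.1) * (n.2 - m.2) + (n.2 - m.2) ^ 2 < 2 := by
    exact_mod_cast d3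
  rcases int_nb d4 with k | k | k | k | k | k | k
  · exact hnm (Prod.ext (by omega) (by omega))
  · have : n = m + (1, 0) := Prod.ext (by simp; omega) (by simp; omega)
    exact hm.2.1 (this ▸ hn.1)
  · have : n = m + (0, 1) := Prod.ext (by simp; omega) (by simp; omega)
    exact hm.2.2.1 (this ▸ hn.1)
  · have : n = m + (-1, 1) := Prod.ext (by simp; omega) (by simp; omega)
    exact hm.2.2.2 (this ▸ hn.1)
  · have : m = n + (1, 0) := Prod.ext (by simp; omega) (by simp; omega)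
    exact hn.2.1 (this ▸ hm.1)
  · have : m = n + (0, 1) := Prod.ext (by simp; omega) (by simp; omega)
    exact hn.2.2.1 (this ▸ hm.1)
  · have : m = n + (-1, 1) := Prod.ext (by simp; omega) (by simp; omega)
    exact hn.2.2.2 (this ▸ hm.1)

lemma lat_fin {u v : Plane} (h : Hex u v) (R : ℝ) :
    {n : ℤ × ℤ | ‖latticePoint u v n‖ ≤ R}.Finite := by
  refine ((Set.finite_Icc (-⌈2 * R⌉) ⌈2 * R⌉).prod (Set.finite_Icc (-⌈2 * R⌉) ⌈2 * R⌉)).subset ?_
  intro n hn
  have hn : ‖latticePoint u v n‖ ≤ R := hn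
  have hR : 0 ≤ R := (norm_nonneg _).trans hn
  have h1 := h.normsq (n.1 : ℝ) (n.2 : ℝ)
  have h2 : ‖latticePoint u v n‖ ^ 2 ≤ R ^ 2 := pow_le_pow_left₀ (norm_nonneg _) hn 2
  rw [latticePoint, h1] at h2
  have a1 : |(n.1 : ℝ)| ≤ 2 * R := abs_le_of_sq_le_sq' (by nlinarith [sq_nonneg ((n.1 : ℝ) + 2 * n.2)])
    (by linarith) |> abs_le.mpr
  have a2 : |(n.2 : ℝ)| ≤ 2 * R := abs_le_of_sq_le_sq' (by nlinarith [sq_nonneg (2 * (n.1 : ℝ) + n.2)])
    (by linarith) |> abs_le.mpr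
  have c := Int.le_ceil (2 * R)
  rw [abs_le] at a1 a2
  refine ⟨⟨?_, ?_⟩, ?_, ?_⟩
  · have : ((-⌈2 * R⌉ : ℤ) : ℝ) ≤ n.1 := by push_cast; linarith
    exact_mod_cast this
  · have : (n.1 : ℝ) ≤ (⌈2 * R⌉ : ℤ) := by linarith
    exact_mod_cast this
  · have : ((-⌈2 * R⌉ : ℤ) : ℝ) ≤ n.2 := by push_cast; linarith
    exact_mod_cast this
  · have : (n.2 : ℝ) ≤ (⌈2 * R⌉ : ℤ) := by linarith
    exact_mod_cast this

lemma En_cover {u v : Plane} (h : Hex u v) {ρ : ℝ} {x : Plane} {n : ℤ × ℤ}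
    (hx : x ∈ ball (latticePoint u v n) ρ) : ∃ m, x ∈ En u v ρ m := by
  have hf : {m : ℤ × ℤ | x ∈ ball (latticePoint u v m) ρ}.Finite := by
    refine (lat_fin h (‖x‖ + ρ)).subset fun m hm => ?_
    have hm : dist x (latticePoint u v m) < ρ := hm
    show ‖_‖ ≤ _
    rw [dist_eq_norm] at hm
    have := norm_sub_le x (x - latticePoint u v m)
    rw [sub_sub_cancel] at this
    linarith
  obtain ⟨m, hm, hmax⟩ := Set.exists_max_image _ (fun m : ℤ × ℤ => m.1 + 2 * m.2) hf ⟨n, hx⟩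
  refine ⟨m, mem_En.mpr ⟨hm, fun k => ?_, fun k => ?_, fun k => ?_⟩⟩ <;>
  · have := hmax _ k
    simp only [Prod.fst_add, Prod.snd_add] at this
    omega

lemma E0_pos {u v : Plane} (h : Hex u v) {ρ : ℝ} (h1 : 1 / 2 < ρ) (h2 : ρ < 1) :
    0 < volume.real (E0 u v ρ) := by
  have hs : ball 0 (1 - ρ) ⊆ E0 u v ρ := by
    intro x hx
    have k : ∀ d : Plane, ‖d‖ = 1 → x ∉ ball d ρ := fun d hd hxd => by
      have := (ball_disjoint_ball (x := (0 : Plane)) (y := d) (δ := 1 - ρ) (ε := ρ)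
        (by rw [dist_zero_left, hd]; linarith))
      exact Set.disjoint_left.mp this hx hxd
    refine ⟨ball_subset_ball (by linarith) hx, ?_⟩
    rintro ((k1 | k1) | k1)
    · exact k _ h.hu k1
    · exact k _ h.hv k1
    · exact k _ (norm_vu h) k1
  have := measureReal_mono (μ := (volume : Measure Plane)) hs (sub_fin sdiff_subset)
  rw [real_ball _ (by linarith)] at this
  have : 0 < Real.pi * (1 - ρ) ^ 2 := mul_pos Real.pi_pos (pow_pos (by linarith) 2)
  linarith

lemma unionDensity_hex {u v : Plane} (h : Hex u v) {ρ : ℝ} (h1 : 1 / 2 < ρ) (h2 : ρ ^ 2 < 1 / 3) :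
    unionDensity (latticePoint u v) (fun _ => ρ) ≤
      ENNReal.ofReal (Real.pi * ρ ^ 2 / volume.real (E0 u v ρ)) := by
  have he := E0_pos h h1 (by nlinarith)
  have hpi := Real.pi_pos
  apply limsup_le_of_le
  · isBoundedDefault
  refine Eventually.of_forall fun R => ENNReal.div_le_of_le_mul ?_
  have k1 : ∑' i : {i : ℤ × ℤ // ball (latticePoint u v i) ρ ⊆ closedBall (0 : Plane) R},
      volume (En u v ρ i.1) ≤ insideUnion (latticePoint u v) (fun _ => ρ) R := by
    rw [← measure_iUnion (f := fun i : {i : ℤ × ℤ // ball (latticePoint u v i) ρ ⊆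
      closedBall (0 : Plane) R} => En u v ρ i.1)
      (fun a b hab => En_disj h h2 (fun e => hab (Subtype.ext e))) (fun i => meas_En u v ρ i.1)]
    exact measure_mono (iUnion_mono fun i x hx => (mem_En.mp hx).1)
  refine le_trans ?_ (mul_le_mul_right k1 _)
  rw [insideSum, ← ENNReal.tsum_mul_left]
  refine ENNReal.tsum_le_tsum fun i => le_of_eq ?_
  rw [vol_b _ (by linarith), vol_En, ← ENNReal.ofReal_toReal (sub_fin (S := E0 u v ρ) sdiff_subset),
    ← measureReal_def, ← ENNReal.ofReal_mul (by positivity), div_mul_cancel₀ _ he.ne']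

end Pool.Agent.Lib.MP_40d282_co.H4
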