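import Pool.Agent.Lib.MP_40d282_co.HexBound

/-! The area comparison between a disk of the hexagonal arrangement and the disk in a hole. -/

open MeasureTheory Metric Set Filter Topology
open scoped ENNReal

namespace Pool.Agent.Lib.MP_40d282_co.H4

lemma ball_fin (x : Plane) (r : ℝ) : volume (ball x r) ≠ ∞ := measure_ball_lt_top.ne

lemma sub_fin {S : Set Plane} {x : Plane} {r : ℝ} (h : S ⊆ ball x r) : volume S ≠ ∞ :=
  measure_ne_top_of_subset h (ball_fin x r)

lemma real_ball (x : Plane) {r : ℝ} (hr : 0 ≤ r) : volume.real (ball x r) = Real.pi * r ^ 2 := by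
  rw [measureReal_def, vol_b x hr, ENNReal.toReal_ofReal (by positivity)]

def lens (ρ : ℝ) (d : Plane) : Set Plane := ball 0 ρ ∩ ball d ρ

lemma lens_eq (ρ : ℝ) {d d' : Plane} (h : ‖d‖ = ‖d'‖) :
    volume.real (lens ρ d) = volume.real (lens ρ d') := by
  let f : Plane ≃ₗᵢ[ℝ] Plane := Submodule.reflection (ℝ ∙ (d - d'))ᗮ
  have hf : f d = d' := Submodule.reflection_sub h
  have e : lens ρ d = f ⁻¹' lens ρ d' := by
    ext x
    simp only [lens, mem_inter_iff, mem_preimage, mem_ball, dist_zero_right, ← hf,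
      f.dist_map, f.norm_map]
  have m : MeasurableSet (lens ρ d') := measurableSet_ball.inter measurableSet_ball
  rw [measureReal_def, measureReal_def, e, f.measurePreserving.measure_preimage m.nullMeasurableSet]

/-- the part of a disk of the hexagonal arrangement outside its three forward neighbours -/
def E0 (u v : Plane) (ρ : ℝ) : Set Plane := ball 0 ρ \ (ball u ρ ∪ ball v ρ ∪ ball (v - u) ρ)

lemma norm_vu {u v : Plane} (h : Hex u v) : ‖v - u‖ = 1 := by
  have e : v - u = (-1 : ℝ) • u + (1 : ℝ) • v := by simp; abel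
  have := h.normsq (-1) 1
  rw [← e] at this
  nlinarith [norm_nonneg (v - u)]

lemma E0_ge {u v : Plane} (h : Hex u v) {ρ : ℝ} (hρ : 0 ≤ ρ) :
    Real.pi * ρ ^ 2 - 3 * volume.real (lens ρ u) ≤ volume.real (E0 u v ρ) := by
  have h1 : E0 u v ρ = ball 0 ρ \ (lens ρ u ∪ lens ρ v ∪ lens ρ (v - u)) := by
    ext x
    simp only [E0, lens, Set.mem_sdiff, mem_union, mem_inter_iff]
    tauto
  have h2 := le_measureReal_sdiff (μ := (volume : Measure Plane)) (s₁ := ball 0 ρ)
    (s₂ := lens ρ u ∪ lens ρ v ∪ lens ρ (v - u))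
    (sub_fin (union_subset (union_subset inter_subset_left inter_subset_left) inter_subset_left))
  have h3 := measureReal_union_le (μ := (volume : Measure Plane)) (lens ρ u ∪ lens ρ v)
    (lens ρ (v - u))
  have h4 := measureReal_union_le (μ := (volume : Measure Plane)) (lens ρ u) (lens ρ v)
  rw [lens_eq ρ (h.hv.trans h.hu.symm)] at h4
  rw [lens_eq ρ ((norm_vu h).trans h.hu.symm)] at h3
  rw [real_ball _ hρ] at h2
  rw [h1]
  linarith

lemma Z_abs {ρ L : ℝ} (hρ : 0 ≤ ρ) {a b c z : Plane} {A B C : Set Plane}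
    (ha : volume.real (lens ρ a) = L) (hb : volume.real (lens ρ b) = L)
    (hc : volume.real (lens ρ c) = L) (hab : ρ + ρ ≤ dist a b) (hac : ρ + ρ ≤ dist a c)
    (hbc : ρ + ρ ≤ dist b c) (hA : ball a ρ ⊆ A) (hB : ball b ρ ⊆ B) (hC : ball c ρ ⊆ C)
    (hAo : IsOpen A) (hzA : z ∈ A) (hz : ‖z‖ < ρ) (hza : ρ < dist z a) (hzb : ρ < dist z b)
    (hzc : ρ < dist z c) :
    volume.real (ball 0 ρ \ (A ∪ B ∪ C)) < Real.pi * ρ ^ 2 - 3 * L := by
  set O : Set Plane := (ball 0 ρ ∩ A) \ (closedBall a ρ ∪ closedBall b ρ ∪ closedBall c ρ) with hO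
  have hOo : IsOpen O := (isOpen_ball.inter hAo).sdiff
    ((isClosed_closedBall.union isClosed_closedBall).union isClosed_closedBall)
  have hOs : O ⊆ ball 0 ρ := fun x hx => hx.1.1
  have hOp : 0 < volume.real O := by
    refine ENNReal.toReal_pos (hOo.measure_ne_zero _ ⟨z, ⟨by simpa using hz, hzA⟩, ?_⟩)
      (sub_fin hOs)
    simp only [mem_union, mem_closedBall, not_or, not_le]
    exact ⟨⟨hza, hzb⟩, hzc⟩
  have ml : ∀ d, MeasurableSet (lens ρ d) := fun d => measurableSet_ball.inter measurableSet_ball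
  have sl : ∀ d, lens ρ d ⊆ ball 0 ρ := fun d => inter_subset_left
  have dl : ∀ d e : Plane, ρ + ρ ≤ dist d e → Disjoint (lens ρ d) (lens ρ e) := fun d e h =>
    (ball_disjoint_ball h).mono inter_subset_right inter_subset_right
  have s3 : lens ρ a ∪ lens ρ b ∪ lens ρ c ⊆ ball 0 ρ :=
    union_subset (union_subset (sl a) (sl b)) (sl c)
  have hY : volume.real (lens ρ a ∪ lens ρ b ∪ lens ρ c ∪ O) = 3 * L + volume.real O := by
    rw [measureReal_union ?_ hOo.measurableSet (sub_fin s3) (sub_fin hOs),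
      measureReal_union (disjoint_union_left.mpr ⟨dl a c hac, dl b c hbc⟩) (ml c)
        (sub_fin (union_subset (sl a) (sl b))) (sub_fin (sl c)),
      measureReal_union (dl a b hab) (ml b) (sub_fin (sl a)) (sub_fin (sl b)), ha, hb, hc]
    · ring
    · rw [Set.disjoint_left]
      rintro x ((k | k) | k) hx
      · exact hx.2 (Or.inl (Or.inl (ball_subset_closedBall k.2)))
      · exact hx.2 (Or.inl (Or.inr (ball_subset_closedBall k.2)))
      · exact hx.2 (Or.inr (ball_subset_closedBall k.2))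
  have h1 : ball 0 ρ \ (A ∪ B ∪ C) ⊆ ball 0 ρ \ (lens ρ a ∪ lens ρ b ∪ lens ρ c ∪ O) := by
    refine sdiff_subset_sdiff_right ?_
    rintro x (((k | k) | k) | k)
    · exact Or.inl (Or.inl (hA k.2))
    · exact Or.inl (Or.inr (hB k.2))
    · exact Or.inr (hC k.2)
    · exact Or.inl (Or.inl k.1.2)
  have h2 := measureReal_mono (μ := (volume : Measure Plane)) h1 (sub_fin sdiff_subset)
  rw [measureReal_sdiff (union_subset s3 hOs)
    ((((ml a).union (ml b)).union (ml c)).union hOo.measurableSet) (ball_fin _ _), hY,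
    real_ball _ hρ] at h2
  linarith

/-- preimage of a big disk under the scaling -/
def PB (ρ t : ℝ) (d : Plane) : Set Plane := {x | ‖t • x - (t + ρ * (1 - t)) • d‖ < ρ}

lemma ball_sub_PB {ρ t : ℝ} (hρ : 0 < ρ) (ht : 0 < t) (ht1 : t < 1) {d : Plane} (hd : ‖d‖ = 1) :
    ball d ρ ⊆ PB ρ t d := by
  intro x hx
  rw [mem_ball, dist_eq_norm] at hx
  have e : t • x - (t + ρ * (1 - t)) • d = t • (x - d) - (ρ * (1 - t)) • d := by
    simp only [add_smul, smul_sub]; abel
  have h1 := norm_sub_le (t • (x - d)) ((ρ * (1 - t)) • d)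
  rw [norm_smul, norm_smul, hd, Real.norm_eq_abs, Real.norm_eq_abs, abs_of_pos ht,
    abs_of_pos (mul_pos hρ (by linarith))] at h1
  show ‖_‖ < ρ
  rw [e]
  nlinarith

lemma lt_norm {u v : Plane} (h : Hex u v) {a b c : ℝ}
    (H : c ^ 2 < a ^ 2 + a * b + b ^ 2) : c < ‖a • u + b • v‖ := by
  rw [← h.normsq] at H
  exact lt_of_pow_lt_pow_left₀ 2 (norm_nonneg _) H

lemma Z_lt {u v : Plane} (h : Hex u v) {ρ t : ℝ} (h1 : 1 / 2 < ρ) (h2 : ρ ^ 2 < 1 / 3)
    (ht : 0 < t) (ht1 : t < 1) :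
    volume.real (ball 0 ρ \ (PB ρ t (-v) ∪ PB ρ t u ∪ PB ρ t (v - u))) <
      Real.pi * ρ ^ 2 - 3 * volume.real (lens ρ u) := by
  have hρ : 0 < ρ := by linarith
  have hρ1 : ρ < 3 / 5 := by nlinarith
  have nv : ‖-v‖ = 1 := by rw [norm_neg, h.hv]
  obtain ⟨β, hβ0, hβ⟩ : ∃ β : ℝ, 0 ≤ β ∧ 3 * β ^ 2 = ρ ^ 2 - 1 / 4 :=
    ⟨Real.sqrt ((ρ ^ 2 - 1 / 4) / 3), Real.sqrt_nonneg _, by
      rw [Real.sq_sqrt (by nlinarith)]; ring⟩
  have hβ1 : β < 1 / 6 := by nlinarith
  obtain ⟨ε, hε⟩ : ∃ ε : ℝ, ε = ρ * (1 - t) * (2 * ρ - 1) / 5 := ⟨_, rfl⟩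
  have hp : 0 < ρ * (1 - t) := mul_pos hρ (by linarith)
  have hp1 : ρ * (1 - t) < 1 := by nlinarith
  have hε0 : 0 < ε := by rw [hε]; have : 0 < 2 * ρ - 1 := by linarith
                         positivity
  have hε1 : ε < 1 / 5 := by rw [hε]; nlinarith
  refine Z_abs (a := -v) (b := u) (c := v - u)
    (z := (2 * β) • u + (-(1 / 2 - ε) - β) • v) hρ.le (lens_eq ρ (nv.trans h.hu.symm)) rfl
    (lens_eq ρ ((norm_vu h).trans h.hu.symm)) ?_ ?_ ?_ (ball_sub_PB hρ ht ht1 nv)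
    (ball_sub_PB hρ ht ht1 h.hu) (ball_sub_PB hρ ht ht1 (norm_vu h))
    (isOpen_lt (by fun_prop) continuous_const) ?_ (h.norm_lt hρ.le (by nlinarith)) ?_ ?_ ?_
  · have e : -v - u = (-1 : ℝ) • u + (-1 : ℝ) • v := by simp; abel
    rw [dist_eq_norm, e]; exact h.le_norm (by nlinarith)
  · have e : -v - (v - u) = (1 : ℝ) • u + (-2 : ℝ) • v := by module
    rw [dist_eq_norm, e]; exact h.le_norm (by nlinarith)
  · have e : u - (v - u) = (2 : ℝ) • u + (-1 : ℝ) • v := by module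
    rw [dist_eq_norm, e]; exact h.le_norm (by nlinarith)
  · show ‖_‖ < ρ
    have e : t • ((2 * β) • u + (-(1 / 2 - ε) - β) • v) - (t + ρ * (1 - t)) • (-v) =
        (t * (2 * β)) • u + (t * (1 / 2 + ε - β) + ρ * (1 - t)) • v := by module
    rw [e]
    apply h.norm_lt hρ.le
    have k : 0 < t * ε * (5 - t - t * ε - 2 * (ρ * (1 - t))) :=
      mul_pos (mul_pos ht hε0) (by nlinarith)
    have k2 : ρ ^ 2 - ((t * (2 * β)) ^ 2 + t * (2 * β) * (t * (1 / 2 + ε - β) + ρ * (1 - t)) +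
        (t * (1 / 2 + ε - β) + ρ * (1 - t)) ^ 2) =
        t * ε * (5 - t - t * ε - 2 * (ρ * (1 - t))) := by
      linear_combination (-t ^ 2) * hβ - 5 * t * hε
    linarith
  · have e : (2 * β) • u + (-(1 / 2 - ε) - β) • v - -v = (2 * β) • u + (1 / 2 + ε - β) • v := by
      module
    rw [dist_eq_norm, e]; exact lt_norm h (by nlinarith)
  · have e : (2 * β) • u + (-(1 / 2 - ε) - β) • v - u =
        (2 * β - 1) • u + (-(1 / 2 - ε) - β) • v := by module
    rw [dist_eq_norm, e]; exact lt_norm h (by nlinarith)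
  · have e : (2 * β) • u + (-(1 / 2 - ε) - β) • v - (v - u) =
        (2 * β + 1) • u + (-(1 / 2 - ε) - β - 1) • v := by module
    rw [dist_eq_norm, e]; exact lt_norm h (by nlinarith)

end Pool.Agent.Lib.MP_40d282_co.H4
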