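import Pool.Agent.Lib.MP_40d282_co.H4Step

/-! From a dense pattern in a disk to a periodic arrangement of the plane; the main theorem. -/

open MeasureTheory Metric Set Filter Topology
open scoped ENNReal

namespace Pool.Agent.Lib.MP_40d282_co.H4

variable {u v : Plane}

def osq : Set Plane := {p | p 0 ∈ Ioo (0 : ℝ) 1 ∧ p 1 ∈ Ioo (0 : ℝ) 1}

lemma osq_open : IsOpen osq :=
  (isOpen_Ioo.preimage (by fun_prop : Continuous fun p : Plane => p 0)).inter
    (isOpen_Ioo.preimage (by fun_prop : Continuous fun p : Plane => p 1))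

lemma vol_osq : volume osq = 1 := by
  have : osq = WithLp.ofLp ⁻¹' (Set.univ.pi fun _ : Fin 2 => Ioo (0 : ℝ) 1) := by
    ext p
    simp [osq, Fin.forall_fin_two]
  rw [this, (PiLp.volume_preserving_ofLp (Fin 2)).measure_preimage
    (MeasurableSet.univ_pi (fun _ => measurableSet_Ioo)).nullMeasurableSet, Real.volume_pi_Ioo]
  simp

lemma shift_mem (n : ℤ × ℤ) {x : Plane} (hx : x - latticePoint u v n ∈ coordMap u v '' osq) :
    x ∈ coordMap u v '' cell n := by
  obtain ⟨p, ⟨h0, h1⟩, e⟩ := hx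
  refine ⟨p + WithLp.toLp 2 ![(n.1 : ℝ), (n.2 : ℝ)], ?_, ?_⟩
  · simp only [cell, sq, mem_ofPred_eq, PiLp.add_apply, Matrix.cons_val_zero, Matrix.cons_val_one,
      mem_Ico]
    exact ⟨⟨by linarith [h0.1], by linarith [h0.2]⟩, by linarith [h1.1], by linarith [h1.2]⟩
  · rw [map_add, e, coordMap_apply]
    simp [latticePoint]

lemma pos_lb (T : Finset (Plane × ℝ)) (hT : ∀ a ∈ T, 0 < a.2) :
    ∃ a b : ℝ, 0 < a ∧ ∀ t ∈ T, a ≤ t.2 ∧ t.2 ≤ b := by
  classical
  induction T using Finset.induction_on with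
  | empty => exact ⟨1, 1, one_pos, by simp⟩
  | insert y T hy ih =>
    obtain ⟨a, b, ha, hab⟩ := ih fun t ht => hT t (Finset.mem_insert_of_mem ht)
    refine ⟨min a y.2, max b y.2, lt_min ha (hT y (Finset.mem_insert_self _ _)), fun t ht => ?_⟩
    rcases Finset.mem_insert.mp ht with rfl | k
    · exact ⟨min_le_right _ _, le_max_right _ _⟩
    · exact ⟨(min_le_left _ _).trans (hab t k).1, (hab t k).2.trans (le_max_left _ _)⟩

lemma periodic (h : Hex u v) {μ c d : ℝ} (hμ : μ ≤ 1) (hd : 0 ≤ d) (hdc : d < c)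
    (hF : Fill μ (ball 0 1) (c * Real.pi)) :
    ∃ (ι : Type) (_ : Countable ι) (x : ι → Plane) (ρ : ι → ℝ),
      IsArrangement μ x ρ ∧ PosHomogeneous ρ ∧ ENNReal.ofReal d < density x ρ := by
  have hk := h.kk_pos
  have hpi := Real.pi_pos
  have hc : 0 < c := by linarith
  have hU : IsOpen (coordMap u v '' osq) :=
    (coordMap u v).isOpenMap_of_finiteDimensional h.surj _ osq_open
  have hv : volume (coordMap u v '' osq) = ENNReal.ofReal (kk u v) := by
    rw [Measure.addHaar_image_linearMap, vol_osq, mul_one, kk]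
  obtain ⟨c1, hc1, hc1'⟩ := exists_between hdc
  obtain ⟨c2, hc2, hc2'⟩ := exists_between hc1'
  obtain ⟨T, hT, hTU, hs⟩ := fill_open hμ hc.le hF hU (a := c2 / c * kk u v) (by
    rw [hv, ENNReal.ofReal_lt_ofReal_iff hk]
    have : c2 / c < 1 := (div_lt_one hc).mpr hc2'
    nlinarith)
  have hs' : c2 * kk u v ≤ tot T := by
    refine le_trans (le_of_eq ?_) hs
    field_simp
  have hball : ∀ (n : ℤ × ℤ) (a : T), ball (latticePoint u v n + a.1.1) a.1.2 ⊆
      coordMap u v '' cell n := by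
    intro n a x hx
    refine shift_mem n (hTU a.1 a.2 ?_)
    rw [mem_ball, dist_eq_norm] at hx ⊢
    rwa [sub_sub]
  have hfar : ∀ i j : (ℤ × ℤ) × T, i ≠ j → i.2.1.2 + μ * j.2.1.2 ≤
      dist (latticePoint u v i.1 + i.2.1.1) (latticePoint u v j.1 + j.2.1.1) := by
    intro i j hij
    by_cases e : i.1 = j.1
    · rw [e, dist_add_left]
      exact hT.2 _ i.2.2 _ j.2.2 fun k => hij (Prod.ext e (Subtype.ext k))
    · refine far hμ (hT.1 _ i.2.2) (hT.1 _ j.2.2) (Disjoint.mono (hball _ _) (hball _ _) ?_)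
      exact (Set.disjoint_image_iff h.inj).mpr (cell_disjoint e)
  refine ⟨(ℤ × ℤ) × T, inferInstance, fun i => latticePoint u v i.1 + i.2.1.1, fun i => i.2.1.2,
    ⟨fun i => hT.1 _ i.2.2, fun i j hij => max_le (hfar i j hij) ?_⟩, ?_, ?_⟩
  · rw [dist_comm]; exact hfar j i hij.symm
  · obtain ⟨a, b, ha, hab⟩ := pos_lb T hT.1
    exact ⟨a, b, ha, fun i => hab _ i.2.2⟩
  · have hsum : ∀ R : ℝ, cnt u v (R - 2) * ENNReal.ofReal (tot T) ≤
        centreSum (fun i : (ℤ × ℤ) × T => latticePoint u v i.1 + i.2.1.1) (fun i => i.2.1.2) R := by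
      intro R
      let f : {n : ℤ × ℤ // ‖latticePoint u v n‖ ≤ R - 2} × T →
          {i : (ℤ × ℤ) × T // latticePoint u v i.1 + i.2.1.1 ∈ closedBall (0 : Plane) R} :=
        fun z => ⟨(z.1.1, z.2), by
          have h1 := z.1.2
          obtain ⟨p, hp, e⟩ := hball z.1.1 z.2 (mem_ball_self (hT.1 _ z.2.2))
          have h2 := h.near hp
          rw [e, add_sub_cancel_left] at h2
          rw [mem_closedBall, dist_zero_right]
          linarith [norm_add_le (latticePoint u v z.1.1) z.2.1.1]⟩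
      have hf : Function.Injective f := by
        intro a b hab
        have h1 : (a.1.1, a.2) = (b.1.1, b.2) := congrArg (fun z => z.1) hab
        exact Prod.ext (Subtype.ext (Prod.ext_iff.mp h1).1) (Prod.ext_iff.mp h1).2
      rw [centreSum]
      refine le_trans ?_ (ENNReal.tsum_comp_le_tsum_of_injective hf _)
      rw [ENNReal.tsum_prod', cnt, ← ENNReal.tsum_mul_right]
      refine ENNReal.tsum_le_tsum fun n => le_of_eq ?_
      rw [tsum_fintype, one_mul, tot, ENNReal.ofReal_sum_of_nonneg (fun _ _ => by positivity),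
        ← Finset.sum_coe_sort]
      exact Finset.sum_congr rfl fun a _ => (vol_b _ (hT.1 _ a.2).le).symm
    refine lt_of_lt_of_le ((ENNReal.ofReal_lt_ofReal_iff (by linarith)).mpr hc1) ?_
    apply le_limsup_of_frequently_le
    swap
    · isBoundedDefault
    apply Eventually.frequently
    filter_upwards [eventually_ge_atTop (4 : ℝ), eventually_ge_atTop (8 * c2 / (c2 - c1))]
      with R hR hR'
    rw [ENNReal.le_div_iff_mul_le (Or.inl (by
      have : 0 < Real.pi * R ^ 2 := by positivity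
      simpa using this)) (Or.inl ENNReal.ofReal_ne_top)]
    refine le_trans ?_ (hsum R)
    refine le_trans ?_ (mul_le_mul_left (h.le_cnt' (by linarith)) _)
    rw [← ENNReal.ofReal_mul (by linarith), ← ENNReal.ofReal_mul (by positivity)]
    apply ENNReal.ofReal_le_ofReal
    rw [div_le_iff₀ (by linarith)] at hR'
    have key : c1 * R ^ 2 ≤ (R - 2 - 2) ^ 2 * c2 := by
      nlinarith [mul_le_mul_of_nonneg_left hR' (show 0 ≤ R by linarith)]
    calc c1 * (Real.pi * R ^ 2) = Real.pi * (c1 * R ^ 2) := by ring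
      _ ≤ Real.pi * ((R - 2 - 2) ^ 2 * c2) := by gcongr
      _ = Real.pi * (R - 2 - 2) ^ 2 / kk u v * (c2 * kk u v) := by field_simp
      _ ≤ _ := by gcongr

theorem main (h : Hex u v) {μ : ℝ} (h1 : Real.sqrt 3 - 1 < μ) (h2 : μ < 1) :
    ∃ (ι : Type) (_ : Countable ι) (x : ι → Plane) (ρ : ι → ℝ),
      IsArrangement μ x ρ ∧ PosHomogeneous ρ ∧
        unionDensity (latticePoint u v) (fun _ => 1 / (1 + μ)) < density x ρ := by
  obtain ⟨s, hsd⟩ : ∃ s, s = Real.sqrt 3 := ⟨_, rfl⟩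
  have hs : s ^ 2 = 3 := by rw [hsd, Real.sq_sqrt (by norm_num)]
  have hs0 : 0 ≤ s := by rw [hsd]; exact Real.sqrt_nonneg _
  have hs1 : 3 / 2 < s := by nlinarith
  rw [← hsd] at h1
  have hμ : 0 < μ := by linarith
  obtain ⟨ρ, hρd⟩ : ∃ ρ, ρ = 1 / (1 + μ) := ⟨_, rfl⟩
  rw [← hρd]
  have hρ : ρ + μ * ρ = 1 := by rw [hρd]; field_simp
  have hρ0 : 0 < ρ := by rw [hρd]; positivity
  have hρ1 : 1 / 2 < ρ := by nlinarith
  have hρs : s * ρ < 1 := by nlinarith
  have hρ2 : ρ ^ 2 < 1 / 3 := by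
    have : (s * ρ) ^ 2 < 1 := pow_lt_one₀ (by positivity) hρs two_ne_zero
    nlinarith
  have hρ3 : ρ < 1 := by nlinarith
  obtain ⟨t, htd⟩ : ∃ t, t = (s / 3 - ρ) / (1 - ρ) := ⟨_, rfl⟩
  have ht : t * (1 - ρ) = s / 3 - ρ := by
    rw [htd, div_mul_cancel₀ _ (by linarith)]
  have ht0 : 0 < t := by rw [htd]; exact div_pos (by nlinarith) (by linarith)
  have ht1 : t < 1 := by rw [htd, div_lt_one (by linarith)]; nlinarith
  have hW := W0_lt h hρ1 hρ2 ht0 ht1 hs (by
    have : t + ρ * (1 - t) = s / 3 := by linarith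
    rw [this]; linarith)
  have he := E0_pos h hρ1 hρ3
  have hpi := Real.pi_pos
  have hk : ρ + μ * (t * ρ) = s / 3 := by
    have : μ * (t * ρ) = t * (1 - ρ) := by linear_combination t * hρ
    linarith
  obtain ⟨c, hc, hF⟩ := iterate h (μ := μ) (ρ := ρ) (r := t * ρ)
    (d := Real.pi * ρ ^ 2 / volume.real (E0 u v ρ)) hμ.le h2.le (by positivity) (by nlinarith) hρ
    (by rw [hk]; nlinarith) (by positivity) (by
      rw [div_mul_eq_mul_div, div_lt_iff₀ he]
      have := mul_lt_mul_of_pos_left hW (show 0 < Real.pi * ρ ^ 2 by positivity)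
      nlinarith)
  obtain ⟨ι, hι, x, r, k1, k2, k3⟩ := periodic h h2.le (by positivity) hc hF
  exact ⟨ι, hι, x, r, k1, k2, (unionDensity_hex h hρ1 hρ2).trans_lt k3⟩

end Pool.Agent.Lib.MP_40d282_co.H4
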