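import Pool.Agent.Lib.MP_40d282_co.H4Hex
import Pool.Agent.Lib.MP_40d282_co.H4Fill

/-! One step of the refilling: hexagonal patch with hole disks, the rest refilled. -/

open MeasureTheory Metric Set Filter Topology
open scoped ENNReal

namespace Pool.Agent.Lib.MP_40d282_co.H4

variable {u v : Plane}

noncomputable def Lam (h : Hex u v) (R : ℝ) : Finset (ℤ × ℤ) := (lat_fin h R).toFinset

lemma mem_Lam (h : Hex u v) {R : ℝ} {n : ℤ × ℤ} : n ∈ Lam h R ↔ ‖latticePoint u v n‖ ≤ R := by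
  simp [Lam]

lemma cnt_eq (h : Hex u v) (R : ℝ) : cnt u v R = ENNReal.ofReal (Lam h R).card := by
  have := ENNReal.tsum_set_one {n : ℤ × ℤ | ‖latticePoint u v n‖ ≤ R}
  rw [(lat_fin h R).encard_eq_coe_toFinset_card] at this
  rw [ENNReal.ofReal_natCast]
  exact this

lemma card_ge (h : Hex u v) {R : ℝ} (hR : 2 ≤ R) :
    Real.pi * (R - 2) ^ 2 / kk u v ≤ (Lam h R).card := by
  have := h.le_cnt' (R := R) (by linarith)
  rw [cnt_eq h] at this
  exact (ENNReal.ofReal_le_ofReal_iff (by positivity)).mp this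

lemma card_le (h : Hex u v) {R : ℝ} (hR : 0 ≤ R) :
    ((Lam h R).card : ℝ) ≤ Real.pi * (R + 2) ^ 2 / kk u v := by
  have := h.cnt_le' (R := R) (by linarith)
  rw [cnt_eq h] at this
  have hk := h.kk_pos
  exact (ENNReal.ofReal_le_ofReal_iff (by positivity)).mp this

lemma lat_far (h : Hex u v) {n m : ℤ × ℤ} (hnm : n ≠ m) :
    1 ≤ dist (latticePoint u v n) (latticePoint u v m) := by
  rw [dist_eq_norm, lat_sub]
  apply h.le_norm
  have : (1 : ℤ) ^ 2 ≤ (n.1 - m.1) ^ 2 + (n.1 - m.1) * (n.2 - m.2) + (n.2 - m.2) ^ 2 := by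
    by_contra hc
    rcases int_nb (a := n.1 - m.1) (b := n.2 - m.2) (by linarith) with k | k | k | k | k | k | k
    · exact hnm (Prod.ext (by omega) (by omega))
    all_goals (rw [k.1, k.2] at hc; norm_num at hc)
  exact_mod_cast this

lemma int_sq (a : ℤ) : a ≤ a ^ 2 := by nlinarith [Int.le_self_sq a]

lemma lat_c0 (h : Hex u v) (n m : ℤ × ℤ) {k : ℝ} (hk : k ^ 2 ≤ 1 / 3) :
    k ≤ dist (latticePoint u v n) (latticePoint u v m + c0 u v) := by
  have e : latticePoint u v n - (latticePoint u v m + c0 u v) =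
      (((n.1 - m.1 : ℤ) : ℝ) - 1 / 3) • u + (((n.2 - m.2 : ℤ) : ℝ) - 1 / 3) • v := by
    rw [← sub_sub, lat_sub, c0]; module
  rw [dist_eq_norm, e]
  apply h.le_norm
  generalize n.1 - m.1 = a
  generalize n.2 - m.2 = b
  have : a + b ≤ a ^ 2 + a * b + b ^ 2 := by
    nlinarith [int_sq a, int_sq b, int_sq (a + b)]
  have : (a : ℝ) + b ≤ (a : ℝ) ^ 2 + a * b + (b : ℝ) ^ 2 := by exact_mod_cast this
  nlinarith

lemma lat_inj (h : Hex u v) : Function.Injective (latticePoint u v) := by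
  intro n m e
  by_contra hc
  have := lat_far h hc
  rw [e, dist_self] at this
  linarith

lemma norm_c0 (h : Hex u v) : ‖c0 u v‖ ≤ 1 := h.norm_le zero_le_one (by norm_num)

lemma fill_open' {μ : ℝ} (hμ : μ ≤ 1) {c a : ℝ} (hc : 0 ≤ c) (h : Fill μ (ball 0 1) (c * Real.pi))
    {U : Set Plane} (hU : IsOpen U) (hf : volume U ≠ ∞) (ha : a < volume.real U) :
    Fill μ U (c * a) := by
  rcases le_or_gt a 0 with k | k
  · exact (fill_zero U).mono subset_rfl (mul_nonpos_of_nonneg_of_nonpos hc k)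
  · refine fill_open hμ hc h hU ?_
    rw [← ENNReal.ofReal_toReal hf]
    exact (ENNReal.ofReal_lt_ofReal_iff (k.trans ha)).mpr ha

open Classical in
noncomputable def patch (h : Hex u v) (ρ r R : ℝ) : Finset (Plane × ℝ) :=
  (Lam h R).image (fun n => (latticePoint u v n, ρ)) ∪
    (Lam h R).image (fun n => (latticePoint u v n + c0 u v, r))

lemma mem_patch (h : Hex u v) {ρ r R : ℝ} {a : Plane × ℝ} : a ∈ patch h ρ r R ↔
    ∃ n, ‖latticePoint u v n‖ ≤ R ∧
      (a = (latticePoint u v n, ρ) ∨ a = (latticePoint u v n + c0 u v, r)) := by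
  simp only [patch, Finset.mem_union, Finset.mem_image, mem_Lam]
  constructor
  · rintro (⟨n, k, rfl⟩ | ⟨n, k, rfl⟩)
    · exact ⟨n, k, Or.inl rfl⟩
    · exact ⟨n, k, Or.inr rfl⟩
  · rintro ⟨n, k, rfl | rfl⟩
    · exact Or.inl ⟨n, k, rfl⟩
    · exact Or.inr ⟨n, k, rfl⟩

lemma tot_patch (h : Hex u v) {ρ r : ℝ} (R : ℝ) (hr : r < ρ) :
    tot (patch h ρ r R) = (Lam h R).card * (Real.pi * ρ ^ 2 + Real.pi * r ^ 2) := by
  classical
  rw [tot, patch, Finset.sum_union, Finset.sum_image, Finset.sum_image]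
  · simp only [Finset.sum_const, nsmul_eq_mul]; ring
  · intro a _ b _ e
    exact lat_inj h (add_right_cancel (congrArg Prod.fst e))
  · intro a _ b _ e
    exact lat_inj h (congrArg Prod.fst e)
  · rw [Finset.disjoint_left]
    intro a ha hb
    obtain ⟨n, -, rfl⟩ := Finset.mem_image.mp ha
    obtain ⟨m, -, e⟩ := Finset.mem_image.mp hb
    exact hr.ne (congrArg Prod.snd e)

lemma arr_patch (h : Hex u v) {μ ρ r : ℝ} (R : ℝ) (hμ0 : 0 ≤ μ) (hμ : μ ≤ 1) (hr0 : 0 < r)
    (hr : r < ρ) (hρ : ρ + μ * ρ = 1) (hk : (ρ + μ * r) ^ 2 ≤ 1 / 3) : Arr μ (patch h ρ r R) := by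
  constructor
  · intro a ha
    obtain ⟨n, -, rfl | rfl⟩ := (mem_patch h).mp ha
    · exact hr0.trans hr
    · exact hr0
  · intro a ha b hb hab
    obtain ⟨n, -, rfl | rfl⟩ := (mem_patch h).mp ha <;>
      obtain ⟨m, -, rfl | rfl⟩ := (mem_patch h).mp hb
    · exact hρ.le.trans (lat_far h (fun e => hab (by rw [e])))
    · exact lat_c0 h n m hk
    · have := lat_c0 h m n hk
      rw [dist_comm] at this
      show r + μ * ρ ≤ _
      nlinarith
    · have := lat_far h (n := n) (m := m) (fun e => hab (by rw [e]))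
      show r + μ * r ≤ dist _ _
      rw [dist_add_right]
      nlinarith

lemma inside_patch (h : Hex u v) {ρ r : ℝ} (R : ℝ) (hr : r < ρ) (hρ : ρ ≤ 1) :
    Inside (patch h ρ r (R - 2)) (ball 0 R) := by
  intro a ha
  obtain ⟨n, k, rfl | rfl⟩ := (mem_patch h).mp ha
  · exact ball_subset_ball' (by rw [dist_zero_right]; linarith)
  · refine ball_subset_ball' ?_
    rw [dist_zero_right]
    have := norm_add_le (latticePoint u v n) (c0 u v)
    have := norm_c0 h
    show r + ‖latticePoint u v n + c0 u v‖ ≤ R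
    linarith

def Wn (u v : Plane) (ρ r : ℝ) (n : ℤ × ℤ) : Set Plane :=
  (fun x => x + -latticePoint u v n) ⁻¹' W0 u v ρ r

lemma cover_le (h : Hex u v) {ρ r : ℝ} (R : ℝ) (hr : r < ρ) (hρ : ρ ≤ 1) :
    volume.real (⋃ a ∈ patch h ρ r (R - 2), closedBall a.1 a.2) ≤
      (Lam h (R + 1)).card * (volume.real (E0 u v ρ) + volume.real (W0 u v ρ r)) := by
  have hE : ∀ n, volume (En u v ρ n) ≠ ∞ := fun n => by
    rw [vol_En]; exact sub_fin sdiff_subset
  have vW : ∀ n, volume (Wn u v ρ r n) = volume (W0 u v ρ r) := fun n =>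
    measure_preimage_add_right _ _ _
  have hW : ∀ n, volume (Wn u v ρ r n) ≠ ∞ := fun n => by
    rw [vW]; exact sub_fin sdiff_subset
  have hsub : (⋃ a ∈ patch h ρ r (R - 2), closedBall a.1 a.2) ⊆
      (⋃ n ∈ Lam h (R + 1), (En u v ρ n ∪ Wn u v ρ r n)) ∪
        ⋃ a ∈ patch h ρ r (R - 2), sphere a.1 a.2 := by
    intro x hx
    obtain ⟨a, ha, hxa⟩ := mem_iUnion₂.mp hx
    rw [← ball_union_sphere] at hxa
    rcases hxa with hxa | hxa
    swap
    · exact Or.inr (mem_iUnion₂.mpr ⟨a, ha, hxa⟩)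
    left
    have hxR := inside_patch h R hr hρ a ha hxa
    rw [mem_ball, dist_zero_right] at hxR
    by_cases hb : ∃ n, x ∈ ball (latticePoint u v n) ρ
    · obtain ⟨n, hn⟩ := hb
      obtain ⟨m, hm⟩ := En_cover h hn
      refine mem_iUnion₂.mpr ⟨m, (mem_Lam h).mpr ?_, Or.inl hm⟩
      have k := (mem_En.mp hm).1
      rw [mem_ball, dist_eq_norm] at k
      have := norm_sub_le x (x - latticePoint u v m)
      rw [sub_sub_cancel] at this
      linarith
    · push Not at hb
      obtain ⟨n, k, rfl | rfl⟩ := (mem_patch h).mp ha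
      · exact absurd hxa (hb n)
      · refine mem_iUnion₂.mpr ⟨n, (mem_Lam h).mpr (by linarith), Or.inr ?_⟩
        have e0 : x + -latticePoint u v n - 0 = x - latticePoint u v n := by abel
        have e1 : x + -latticePoint u v n - u = x - latticePoint u v (n + (1, 0)) := by
          simp only [latticePoint, Prod.fst_add, Prod.snd_add]; push_cast; module
        have e2 : x + -latticePoint u v n - v = x - latticePoint u v (n + (0, 1)) := by
          simp only [latticePoint, Prod.fst_add, Prod.snd_add]; push_cast; module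
        have e3 : x + -latticePoint u v n - c0 u v = x - (latticePoint u v n + c0 u v) := by abel
        simp only [mem_ball, dist_eq_norm] at hb hxa
        simp only [Wn, W0, mem_preimage, Set.mem_sdiff, mem_union, mem_ball, dist_eq_norm, e0, e1,
          e2, e3, not_or]
        exact ⟨hxa, ⟨hb _, hb _⟩, hb _⟩
  have h0 : volume (⋃ a ∈ patch h ρ r (R - 2), sphere a.1 a.2) = 0 :=
    (measure_biUnion_null_iff (Finset.countable_toSet _)).mpr fun a _ =>
      Measure.addHaar_sphere _ _ _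
  have hfin : volume (⋃ n ∈ Lam h (R + 1), (En u v ρ n ∪ Wn u v ρ r n)) ≠ ∞ :=
    (measure_biUnion_lt_top (Finset.finite_toSet _) fun n _ =>
      measure_union_lt_top (hE n).lt_top (hW n).lt_top).ne
  refine (measureReal_mono hsub (measure_union_lt_top hfin.lt_top (by rw [h0]; simp)).ne).trans ?_
  refine (measureReal_union_le _ _).trans ?_
  rw [measureReal_def _ (⋃ a ∈ patch h ρ r (R - 2), sphere a.1 a.2), h0, ENNReal.toReal_zero,
    add_zero]
  refine (measureReal_biUnion_finset_le _ _).trans ?_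
  rw [← nsmul_eq_mul]
  refine Finset.sum_le_card_nsmul _ _ _ fun n _ => (measureReal_union_le _ _).trans (le_of_eq ?_)
  simp only [measureReal_def, vol_En, vW]

lemma step_big (h : Hex u v) {μ ρ r c : ℝ} (R : ℝ) (hR : 0 ≤ R) (hμ0 : 0 ≤ μ) (hμ : μ ≤ 1)
    (hr0 : 0 < r) (hr : r < ρ) (hρ : ρ + μ * ρ = 1) (hk : (ρ + μ * r) ^ 2 ≤ 1 / 3) (hc : 0 ≤ c)
    (hF : Fill μ (ball 0 1) (c * Real.pi)) :
    Fill μ (ball 0 R) ((Lam h (R - 2)).card * (Real.pi * ρ ^ 2 + Real.pi * r ^ 2) +
      c * (Real.pi * R ^ 2 - (Lam h (R + 1)).card *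
        (volume.real (E0 u v ρ) + volume.real (W0 u v ρ r)) - 1)) := by
  have hρ1 : ρ ≤ 1 := by nlinarith
  set K := ⋃ a ∈ patch h ρ r (R - 2), closedBall a.1 a.2 with hK
  have hKc : IsClosed K := (Finset.finite_toSet _).isClosed_biUnion fun a _ => isClosed_closedBall
  have hKf : volume K ≠ ∞ :=
    (measure_biUnion_lt_top (Finset.finite_toSet _) fun a _ => measure_closedBall_lt_top).ne
  have h1 := le_measureReal_sdiff (μ := (volume : Measure Plane)) (s₁ := ball 0 R) hKf
  rw [real_ball _ hR] at h1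
  have h2 := cover_le h R hr hρ1
  obtain ⟨S, s1, s2, s3⟩ := fill_open' hμ hc hF (isOpen_ball.sdiff hKc) (sub_fin sdiff_subset)
    (a := Real.pi * R ^ 2 - (Lam h (R + 1)).card *
      (volume.real (E0 u v ρ) + volume.real (W0 u v ρ r)) - 1) (by linarith)
  refine (glue hμ (arr_patch h (R - 2) hμ0 hμ hr0 hr hρ hk) s1 (inside_patch h R hr hρ1)
    (fun a ha => (s2 a ha).trans sdiff_subset) fun a ha b hb => ?_).mono subset_rfl ?_
  · rw [Set.disjoint_left]
    intro x hx hx'
    exact (s2 b hb hx').2 (mem_iUnion₂.mpr ⟨a, ha, ball_subset_closedBall hx⟩)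
  · rw [tot_patch h _ hr]
    linarith

lemma iterate (h : Hex u v) {μ ρ r d : ℝ} (hμ0 : 0 ≤ μ) (hμ : μ ≤ 1)
    (hr0 : 0 < r) (hr : r < ρ) (hρ : ρ + μ * ρ = 1) (hk : (ρ + μ * r) ^ 2 ≤ 1 / 3) (hd : 0 ≤ d)
    (hg : d * (volume.real (E0 u v ρ) + volume.real (W0 u v ρ r)) <
      Real.pi * ρ ^ 2 + Real.pi * r ^ 2) :
    ∃ c, d < c ∧ Fill μ (ball 0 1) (c * Real.pi) := by
  have hk0 := h.kk_pos
  have hpi := Real.pi_gt_three
  set A := Real.pi * ρ ^ 2 + Real.pi * r ^ 2 with hA
  set V := volume.real (E0 u v ρ) + volume.real (W0 u v ρ r) with hV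
  have hA0 : 0 ≤ A := by positivity
  have hV0 : 0 ≤ V := by positivity
  set k := kk u v with hkk
  obtain ⟨g, hgd⟩ : ∃ g, g = A - d * V := ⟨_, rfl⟩
  have hg0 : 0 < g := by linarith
  obtain ⟨R, hRd⟩ : ∃ R, R = 4 + 2 * (8 * A + 15 * (d * V) + d * k) / g := ⟨_, rfl⟩
  have hQ : 0 ≤ 8 * A + 15 * (d * V) + d * k := by positivity
  have hR4 : 4 ≤ R := by
    have : 0 ≤ 2 * (8 * A + 15 * (d * V) + d * k) / g := by positivity
    linarith
  have hRg : 2 * (8 * A + 15 * (d * V) + d * k) ≤ g * R := by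
    rw [hRd, mul_add g, mul_div_cancel₀ _ hg0.ne']; linarith
  have step : ∀ c, 0 ≤ c → c ≤ d → Fill μ (ball 0 1) (c * Real.pi) →
      Fill μ (ball 0 1) ((c + g / (2 * k)) * Real.pi) := by
    intro c hc hcd hF
    have h1 := (step_big h R (by linarith) hμ0 hμ hr0 hr hρ hk hc hF).scale 0
      (t := R⁻¹) (by positivity)
    rw [inv_mul_cancel₀ (by positivity)] at h1
    refine h1.mono subset_rfl ?_
    rw [inv_pow, ← div_eq_inv_mul, le_div_iff₀ (by positivity)]
    have n1 := card_ge h (R := R - 2) (by linarith)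
    have n2 := card_le h (R := R + 1) (by linarith)
    rw [← hA, ← hV]
    rw [← hkk] at n1 n2
    have b1 : Real.pi * (R - 2 - 2) ^ 2 / k * A ≤ (Lam h (R - 2)).card * A := by gcongr
    have b2 : c * ((Lam h (R + 1)).card * V) ≤ d * (Real.pi * (R + 1 + 2) ^ 2 / k * V) := by gcongr
    have b3 : g / 2 * R ^ 2 ≤ (R - 4) ^ 2 * A - (R + 3) ^ 2 * (d * V) - d * k := by
      have hdV : 0 ≤ d * V := by positivity
      have hdk : 0 ≤ d * k := by positivity
      have : A = g + d * V := by linarith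
      nlinarith [mul_le_mul_of_nonneg_right hRg (show 0 ≤ R by linarith),
        mul_nonneg hdV (show 0 ≤ R - 1 by linarith), mul_nonneg hdk (show 0 ≤ R - 1 by linarith)]
    have b4 : g / (2 * k) * Real.pi * R ^ 2 ≤ Real.pi * (R - 2 - 2) ^ 2 / k * A -
        d * (Real.pi * (R + 1 + 2) ^ 2 / k * V) - Real.pi * d := by
      have := mul_le_mul_of_nonneg_left b3 (show 0 ≤ Real.pi / k by positivity)
      have e1 : Real.pi / k * (g / 2 * R ^ 2) = g / (2 * k) * Real.pi * R ^ 2 := by field_simp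
      have e2 : Real.pi / k * ((R - 4) ^ 2 * A - (R + 3) ^ 2 * (d * V) - d * k) =
          Real.pi * (R - 2 - 2) ^ 2 / k * A - d * (Real.pi * (R + 1 + 2) ^ 2 / k * V) -
            Real.pi * d := by field_simp; ring
      rwa [e1, e2] at this
    nlinarith
  have hγ : 0 < g / (2 * k) := by positivity
  have ind : ∀ n : ℕ, (∃ c, d < c ∧ Fill μ (ball 0 1) (c * Real.pi)) ∨
      Fill μ (ball 0 1) ((n * (g / (2 * k))) * Real.pi) := by
    intro n
    induction n with
    | zero => right; simpa using fill_zero _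
    | succ n ih =>
      rcases ih with k1 | k1
      · exact Or.inl k1
      · rcases lt_or_ge d (n * (g / (2 * k))) with k2 | k2
        · exact Or.inl ⟨_, k2, k1⟩
        · right
          have := step _ (by positivity) k2 k1
          push_cast
          rwa [add_mul, one_mul]
  obtain ⟨n, hn⟩ := exists_nat_gt (d / (g / (2 * k)))
  rcases ind n with k1 | k1
  · exact k1
  · exact ⟨_, (div_lt_iff₀ hγ).mp hn, k1⟩

end Pool.Agent.Lib.MP_40d282_co.H4
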