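import Pool.Agent.Lib.MP_40d282_co.Basic

open MeasureTheory Metric Set Filter Topology
open scoped ENNReal

namespace Pool.Agent.Lib.MP_40d282_co

noncomputable def kk (u v : Plane) : ℝ := |LinearMap.det (coordMap u v)|

lemma kap_eq (u v : Plane) : kap u v = ENNReal.ofReal (kk u v) := rfl

lemma Hex.kk_pos {u v : Plane} (h : Hex u v) : 0 < kk u v := by
  have := h.kap_ne_zero
  rw [kap_eq] at this
  simpa using this

lemma vol_cb {r : ℝ} (hr : 0 ≤ r) :
    volume (closedBall (0 : Plane) r) = ENNReal.ofReal (Real.pi * r ^ 2) := by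
  rw [EuclideanSpace.volume_closedBall_fin_two, ← ENNReal.ofReal_pow hr,
    ← ENNReal.ofReal_mul (by positivity), mul_comm]

lemma vol_b (x : Plane) {r : ℝ} (hr : 0 ≤ r) :
    volume (ball x r) = ENNReal.ofReal (Real.pi * r ^ 2) := by
  rw [EuclideanSpace.volume_ball_fin_two, ← ENNReal.ofReal_pow hr,
    ← ENNReal.ofReal_mul (by positivity), mul_comm]

lemma Hex.cnt_le' {u v : Plane} (h : Hex u v) {R : ℝ} (hR : 0 ≤ R + 2) :
    cnt u v R ≤ ENNReal.ofReal (Real.pi * (R + 2) ^ 2 / kk u v) := by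
  have h1 := h.cnt_le R
  rw [vol_cb hR] at h1
  rw [ENNReal.ofReal_div_of_pos h.kk_pos, ← kap_eq,
    ENNReal.le_div_iff_mul_le (Or.inl h.kap_ne_zero) (Or.inl (kap_ne_top u v)), mul_comm]
  exact h1

lemma Hex.le_cnt' {u v : Plane} (h : Hex u v) {R : ℝ} (hR : 0 ≤ R - 2) :
    ENNReal.ofReal (Real.pi * (R - 2) ^ 2 / kk u v) ≤ cnt u v R := by
  have h1 := h.le_cnt R
  rw [vol_cb hR] at h1
  rw [ENNReal.ofReal_div_of_pos h.kk_pos, ← kap_eq]
  apply ENNReal.div_le_of_le_mul
  rwa [mul_comm (cnt u v R)]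

/-- upper triangle of the small square -/
def tri1 (n : ℤ × ℤ) : Set Plane :=
  {p | p 0 - n.1 < 1 / 3 + 307 / 100000 ∧ p 1 - n.2 < 1 / 3 + 307 / 100000 ∧
    2 / 3 - 307 / 100000 < (p 0 - n.1) + (p 1 - n.2)}

def tri2 (n : ℤ × ℤ) : Set Plane :=
  {p | 2 / 3 - 307 / 100000 < p 0 - n.1 ∧ 2 / 3 - 307 / 100000 < p 1 - n.2 ∧
    (p 0 - n.1) + (p 1 - n.2) < 4 / 3 + 307 / 100000}

def tri3 (n : ℤ × ℤ) : Set Plane :=
  {p | 1 / 3 - 614 / 100000 < p 0 - n.1 ∧ 1 / 3 - 614 / 100000 < p 1 - n.2 ∧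
    (p 0 - n.1) + (p 1 - n.2) < 2 / 3 - 307 / 100000}

lemma meas_tri1 (n : ℤ × ℤ) : MeasurableSet (tri1 n) := by
  have h0 := meas_coord 0
  have h1 := meas_coord 1
  unfold tri1
  simp only [Set.ofPred_and]
  refine MeasurableSet.inter ?_ (MeasurableSet.inter ?_ ?_) <;>
    exact measurableSet_lt (by fun_prop) (by fun_prop)

lemma meas_tri2 (n : ℤ × ℤ) : MeasurableSet (tri2 n) := by
  have h0 := meas_coord 0
  have h1 := meas_coord 1
  unfold tri2
  simp only [Set.ofPred_and]
  refine MeasurableSet.inter ?_ (MeasurableSet.inter ?_ ?_) <;>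
    exact measurableSet_lt (by fun_prop) (by fun_prop)

lemma meas_tri3 (n : ℤ × ℤ) : MeasurableSet (tri3 n) := by
  have h0 := meas_coord 0
  have h1 := meas_coord 1
  unfold tri3
  simp only [Set.ofPred_and]
  refine MeasurableSet.inter ?_ (MeasurableSet.inter ?_ ?_) <;>
    exact measurableSet_lt (by fun_prop) (by fun_prop)

lemma vol_tri2 (n : ℤ × ℤ) : volume (tri2 n) = volume (tri3 n) := by
  have : tri2 n = (fun p => (WithLp.toLp 2 ![-(1 / 3 + 307 / 100000), -(1 / 3 + 307 / 100000)] :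
      Plane) + p) ⁻¹' tri3 n := by
    ext p
    simp only [tri2, tri3, mem_ofPred_eq, mem_preimage, PiLp.add_apply, Matrix.cons_val_zero,
      Matrix.cons_val_one]
    constructor
    · rintro ⟨h1, h2, h3⟩
      refine ⟨by linarith, by linarith, by linarith⟩
    · rintro ⟨h1, h2, h3⟩
      refine ⟨by linarith, by linarith, by linarith⟩
  rw [this, measure_preimage_add]

lemma vol_tri (n : ℤ × ℤ) :
    volume (tri1 n) + volume (tri2 n) ≤ ENNReal.ofReal ((921 / 100000) ^ 2) := by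
  rw [vol_tri2, ← measure_union _ (meas_tri3 n)]
  · calc volume (tri1 n ∪ tri3 n)
        ≤ volume (sq (n.1 + (1 / 3 - 614 / 100000)) (n.2 + (1 / 3 - 614 / 100000))
            (921 / 100000)) := by
          apply measure_mono
          rintro p (⟨h1, h2, h3⟩ | ⟨h1, h2, h3⟩)
          · exact ⟨⟨by linarith, by linarith⟩, ⟨by linarith, by linarith⟩⟩
          · exact ⟨⟨by linarith, by linarith⟩, ⟨by linarith, by linarith⟩⟩
      _ = _ := by rw [volume_sq, ← ENNReal.ofReal_mul (by norm_num), pow_two]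
  · rw [Set.disjoint_left]
    rintro p ⟨_, _, h3⟩ ⟨_, _, h6⟩
    linarith

def good (n : ℤ × ℤ) : Set Plane := cell n \ (tri1 n ∪ tri2 n)

lemma meas_good (n : ℤ × ℤ) : MeasurableSet (good n) :=
  (measurableSet_sq _ _ _).diff ((meas_tri1 n).union (meas_tri2 n))

lemma vol_good (n : ℤ × ℤ) : ENNReal.ofReal (1 - (921 / 100000) ^ 2) ≤ volume (good n) := by
  have h1 : volume (cell n) ≤ volume (good n) + (volume (tri1 n) + volume (tri2 n)) := by
    calc volume (cell n) ≤ volume (good n ∪ (tri1 n ∪ tri2 n)) := by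
          apply measure_mono
          intro p hp
          by_cases h : p ∈ tri1 n ∪ tri2 n
          · exact Or.inr h
          · exact Or.inl ⟨hp, h⟩
      _ ≤ volume (good n) + volume (tri1 n ∪ tri2 n) := measure_union_le _ _
      _ ≤ _ := by gcongr; exact measure_union_le _ _
  rw [volume_cell] at h1
  have h2 := h1.trans (add_le_add_right (vol_tri n) _)
  rw [ENNReal.ofReal_sub _ (by positivity), ENNReal.ofReal_one]
  exact tsub_le_iff_right.mpr h2

lemma pent {x y : ℝ} (h0 : 0 ≤ y) (h1 : y ≤ x) (h2 : 2 * x - y ≤ 1) (h3 : x + y ≤ 1)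
    (h4 : x ≤ 2 / 3 - 307 / 100000) : x ^ 2 - x * y + y ^ 2 < (50 / 87) ^ 2 := by
  rcases le_total x (1 / 2) with h | h
  · nlinarith [mul_nonneg h0 (sub_nonneg.mpr h1)]
  · nlinarith [mul_nonneg (show 0 ≤ y - (2 * x - 1) by linarith) (show 0 ≤ 1 - x - y by linarith),
      mul_nonneg (sub_nonneg.mpr h) (sub_nonneg.mpr h4)]

lemma lower_cover {a b : ℝ} (ha : 0 ≤ a) (hb : 0 ≤ b) (hab : a + b ≤ 1)
    (h : ¬ (a < 1 / 3 + 307 / 100000 ∧ b < 1 / 3 + 307 / 100000 ∧ 2 / 3 - 307 / 100000 < a + b)) :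
    a ^ 2 + a * b + b ^ 2 < (50 / 87) ^ 2 ∨
      (a - 1) ^ 2 + (a - 1) * b + b ^ 2 < (50 / 87) ^ 2 ∨
      a ^ 2 + a * (b - 1) + (b - 1) ^ 2 < (50 / 87) ^ 2 := by
  have K0 : 2 * a + b ≤ 1 → a + 2 * b ≤ 1 → a ^ 2 + a * b + b ^ 2 < (50 / 87) ^ 2 := by
    intro k1 k2
    have hs : a + b ≤ 2 / 3 - 307 / 100000 := by
      by_contra hc
      apply h
      refine ⟨by linarith, by linarith, by linarith⟩
    have := pent (x := a + b) (y := a) ha (by linarith) (by linarith) (by linarith) hs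
    nlinarith
  have K1 : 1 ≤ 2 * a + b → b ≤ a → (a - 1) ^ 2 + (a - 1) * b + b ^ 2 < (50 / 87) ^ 2 := by
    intro k1 k2
    have hs : 1 - a ≤ 2 / 3 - 307 / 100000 := by
      by_contra hc
      apply h
      refine ⟨by linarith, by linarith, by linarith⟩
    have := pent (x := 1 - a) (y := b) hb (by linarith) (by linarith) (by linarith) hs
    nlinarith
  have K2 : 1 ≤ a + 2 * b → a ≤ b → a ^ 2 + a * (b - 1) + (b - 1) ^ 2 < (50 / 87) ^ 2 := by
    intro k1 k2
    have hs : 1 - b ≤ 2 / 3 - 307 / 100000 := by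
      by_contra hc
      apply h
      refine ⟨by linarith, by linarith, by linarith⟩
    have := pent (x := 1 - b) (y := a) ha (by linarith) (by linarith) (by linarith) hs
    nlinarith
  rcases le_total b a with h1 | h1
  · rcases le_total (2 * a + b) 1 with h2 | h2
    · exact Or.inl (K0 h2 (by linarith))
    · exact Or.inr (Or.inl (K1 h2 h1))
  · rcases le_total (a + 2 * b) 1 with h2 | h2
    · exact Or.inl (K0 (by linarith) h2)
    · exact Or.inr (Or.inr (K2 h2 h1))

lemma good_cover {n : ℤ × ℤ} {p : Plane} (hp : p ∈ good n) :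
    ∃ e : ℤ × ℤ, (e.1 = 0 ∨ e.1 = 1) ∧ (e.2 = 0 ∨ e.2 = 1) ∧
      (p 0 - n.1 - e.1) ^ 2 + (p 0 - n.1 - e.1) * (p 1 - n.2 - e.2) + (p 1 - n.2 - e.2) ^ 2
        < (50 / 87) ^ 2 := by
  obtain ⟨⟨⟨h1, h2⟩, ⟨h3, h4⟩⟩, h5⟩ := hp
  rw [mem_union, not_or] at h5
  obtain ⟨h5, h6⟩ := h5
  rcases le_total ((p 0 - n.1) + (p 1 - n.2)) 1 with h | h
  · rcases lower_cover (a := p 0 - n.1) (b := p 1 - n.2) (by linarith) (by linarith) h h5
      with k | k | k
    · exact ⟨(0, 0), by simp, by simp, by simpa using k⟩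
    · exact ⟨(1, 0), by simp, by simp, by simpa using k⟩
    · exact ⟨(0, 1), by simp, by simp, by simpa using k⟩
  · have h7 : ¬ (1 - (p 0 - n.1) < 1 / 3 + 307 / 100000 ∧ 1 - (p 1 - n.2) < 1 / 3 + 307 / 100000 ∧
        2 / 3 - 307 / 100000 < (1 - (p 0 - n.1)) + (1 - (p 1 - n.2))) := by
      rintro ⟨k1, k2, k3⟩
      exact h6 ⟨by linarith, by linarith, by linarith⟩
    rcases lower_cover (a := 1 - (p 0 - n.1)) (b := 1 - (p 1 - n.2)) (by linarith) (by linarith)
      (by linarith) h7 with k | k | k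
    · refine ⟨(1, 1), by simp, by simp, ?_⟩
      push_cast; nlinarith
    · refine ⟨(0, 1), by simp, by simp, ?_⟩
      push_cast; nlinarith
    · refine ⟨(1, 0), by simp, by simp, ?_⟩
      push_cast; nlinarith

lemma Hex.union_ge {u v : Plane} (h : Hex u v) (R : ℝ) :
    kap u v * (cnt u v (R - 3) * ENNReal.ofReal (1 - (921 / 100000) ^ 2)) ≤
      insideUnion (latticePoint u v) (fun _ => (50 / 87 : ℝ)) R := by
  rw [insideUnion, h.vol_eq]
  gcongr
  calc cnt u v (R - 3) * ENNReal.ofReal (1 - (921 / 100000) ^ 2)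
      = ∑' _ : {n : ℤ × ℤ // ‖latticePoint u v n‖ ≤ R - 3},
          ENNReal.ofReal (1 - (921 / 100000) ^ 2) := by
        rw [cnt, ← ENNReal.tsum_mul_right]; simp
    _ ≤ ∑' n : {n : ℤ × ℤ // ‖latticePoint u v n‖ ≤ R - 3}, volume (good n.1) :=
        ENNReal.tsum_le_tsum fun n => vol_good n.1
    _ = volume (⋃ n : {n : ℤ × ℤ // ‖latticePoint u v n‖ ≤ R - 3}, good n.1) := by
        rw [measure_iUnion]
        · intro a b hab
          exact (cell_disjoint (fun e => hab (Subtype.ext e))).mono sdiff_subset sdiff_subset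
        · intro n; exact meas_good _
    _ ≤ _ := by
        apply measure_mono
        intro p hp
        obtain ⟨n, hn⟩ := mem_iUnion.mp hp
        obtain ⟨e, he1, he2, he⟩ := good_cover hn
        have hn2 := n.2
        have hnorm : ‖latticePoint u v (n.1 + e)‖ ≤ R - 1 := by
          have : latticePoint u v (n.1 + e) =
              latticePoint u v n.1 + ((e.1 : ℝ) • u + (e.2 : ℝ) • v) := by
            simp only [latticePoint, Prod.fst_add, Prod.snd_add, Int.cast_add, add_smul]; abel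
          rw [this]
          have h2 : ‖(e.1 : ℝ) • u + (e.2 : ℝ) • v‖ ≤ 2 := by
            apply h.norm_le (by norm_num)
            rcases he1 with k | k <;> rcases he2 with l | l <;> rw [k, l] <;> norm_num
          linarith [norm_add_le (latticePoint u v n.1) ((e.1 : ℝ) • u + (e.2 : ℝ) • v)]
        refine mem_preimage.mpr (mem_iUnion.mpr ⟨⟨n.1 + e, ?_⟩, ?_⟩)
        · apply (ball_subset_closedBall).trans
          apply closedBall_subset_closedBall'
          rw [dist_zero_right]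
          linarith
        · rw [mem_ball, dist_eq_norm]
          have : coordMap u v p - latticePoint u v (n.1 + e) =
              (p 0 - n.1.1 - e.1) • u + (p 1 - n.1.2 - e.2) • v := by
            simp only [coordMap_apply, latticePoint, Prod.fst_add, Prod.snd_add, Int.cast_add,
              add_smul, sub_smul]; abel
          simp only []
          rw [this]
          exact h.norm_lt (by norm_num) he

lemma Hex.sum_le {u v : Plane} (R : ℝ) :
    insideSum (latticePoint u v) (fun _ => (50 / 87 : ℝ)) R ≤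
      cnt u v R * ENNReal.ofReal (Real.pi * (50 / 87) ^ 2) := by
  rw [insideSum, cnt, ← ENNReal.tsum_mul_right]
  let f : {i : ℤ × ℤ // ball (latticePoint u v i) (50 / 87 : ℝ) ⊆ closedBall (0 : Plane) R} →
      {n : ℤ × ℤ // ‖latticePoint u v n‖ ≤ R} := fun i =>
    ⟨i.1, by
      have := i.2 (mem_ball_self (by norm_num))
      simpa using this⟩
  have hf : Function.Injective f := by
    intro a b hab
    exact Subtype.ext (congrArg (fun z => z.1) hab)
  refine le_trans ?_ (ENNReal.tsum_comp_le_tsum_of_injective hf _)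
  apply ENNReal.tsum_le_tsum
  intro i
  rw [vol_b _ (by norm_num), one_mul]

lemma Hex.unionDensity_le {u v : Plane} (h : Hex u v) :
    unionDensity (latticePoint u v) (fun _ => (50 / 87 : ℝ)) ≤
      ENNReal.ofReal (Real.pi * (3303229 / 10000000) / kk u v) := by
  have hk := h.kk_pos
  have hpi := Real.pi_pos
  apply limsup_le_of_le
  · isBoundedDefault
  filter_upwards [eventually_ge_atTop (100000000 : ℝ)] with R hR
  apply ENNReal.div_le_of_le_mul
  refine (Hex.sum_le R).trans (le_trans ?_ (mul_le_mul_right (h.union_ge R) _))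
  refine (mul_le_mul_left (h.cnt_le' (by linarith)) _).trans ?_
  refine le_trans ?_ (mul_le_mul_right (mul_le_mul_right
    (mul_le_mul_left (h.le_cnt' (by linarith)) _) _) _)
  rw [kap_eq, ← ENNReal.ofReal_mul (by positivity), ← ENNReal.ofReal_mul (by positivity),
    ← ENNReal.ofReal_mul (by positivity), ← ENNReal.ofReal_mul (by positivity)]
  apply ENNReal.ofReal_le_ofReal
  have key : (R + 2) ^ 2 * (50 / 87) ^ 2 ≤
      3303229 / 10000000 * ((R - 3 - 2) ^ 2 * (1 - (921 / 100000) ^ 2)) := by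
    nlinarith
  have : Real.pi * (3303229 / 10000000) / kk u v * (kk u v * (Real.pi * (R - 3 - 2) ^ 2 / kk u v *
      (1 - (921 / 100000) ^ 2))) = (Real.pi ^ 2 / kk u v) *
        (3303229 / 10000000 * ((R - 3 - 2) ^ 2 * (1 - (921 / 100000) ^ 2))) := by
    field_simp
  rw [this]
  have : Real.pi * (R + 2) ^ 2 / kk u v * (Real.pi * (50 / 87) ^ 2) =
      (Real.pi ^ 2 / kk u v) * ((R + 2) ^ 2 * (50 / 87) ^ 2) := by
    field_simp
  rw [this]
  gcongr

end Pool.Agent.Lib.MP_40d282_co
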